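import Pool.Agent.MP_e57dcf_an.Mg.H70_Final

/-! The frames doing weak phase retrieval form a nowhere dense set. -/

set_option autoImplicit false
open Finset Matrix Topology Filter

namespace Pool.Agent.MP_e57dcf_an

theorem nowhere_of_analytic {E : Type} [NormedAddCommGroup E] [NormedSpace ℝ E] {F W : E → Prop}
    {P D : E → ℝ} (hP : ∀ x, AnalyticAt ℝ P x) (hD : ∀ x, AnalyticAt ℝ D x) {g : E}
    (hg : P g * D g ≠ 0) (hF : ∀ x, D x ≠ 0 → F x) (hW : ∀ x, W x → P x = 0) :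
    IsNowhereDense {x : {x : E // F x} | W x.1} := by
  have hc : Continuous P := continuous_iff_continuousAt.2 fun x => (hP x).continuousAt
  have hcl : IsClosed {x : {x : E // F x} | P x.1 = 0} :=
    isClosed_eq (hc.comp continuous_subtype_val) continuous_const
  refine IsNowhereDense.mono (s := {x : {x : E // F x} | P x.1 = 0}) (fun x hx => hW _ hx) ?_
  rw [hcl.isNowhereDense_iff, Set.eq_empty_iff_forall_notMem]
  intro x hx
  rw [mem_interior_iff_mem_nhds, nhds_induced, mem_comap] at hx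
  obtain ⟨U, hU, hsub⟩ := hx
  have h1 : (fun y => P y * D y) =ᶠ[𝓝 x.1] fun _ => 0 := by
    filter_upwards [hU] with y hy
    by_cases h : D y = 0
    · rw [h, mul_zero]
    · have : P y = 0 := hsub (a := ⟨y, hF y h⟩) hy
      rw [this, zero_mul]
  have h2 := AnalyticOnNhd.eq_of_eventuallyEq (𝕜 := ℝ) (fun y _ => (hP y).mul (hD y))
    (fun _ _ => analyticAt_const) h1
  exact hg (congrFun h2 g)

theorem coord_analytic {m n : ℕ} (i : Fin m) (k : Fin n)
    (x : Fin m → EuclideanSpace ℝ (Fin n)) :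
    AnalyticAt ℝ (fun f : Fin m → EuclideanSpace ℝ (Fin n) => f i k) x :=
  ((EuclideanSpace.proj k : EuclideanSpace ℝ (Fin n) →L[ℝ] ℝ).comp
    (ContinuousLinearMap.proj i :
      (Fin m → EuclideanSpace ℝ (Fin n)) →L[ℝ] EuclideanSpace ℝ (Fin n))).analyticAt x

theorem span_top_of {m n : ℕ} {f : Fin m → EuclideanSpace ℝ (Fin n)}
    (h : ∀ y : Fin n → ℝ, (∀ i, (f i).ofLp ⬝ᵥ y = 0) → y = 0) :
    Submodule.span ℝ (Set.range f) = ⊤ := by
  rw [← Submodule.orthogonal_eq_bot_iff, Submodule.eq_bot_iff]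
  intro y hy
  have h1 := h y.ofLp fun i => by
    rw [← inner_eq_dot]
    exact hy _ (Submodule.subset_span ⟨i, rfl⟩)
  exact (WithLp.ofLp_eq_zero 2).1 h1

theorem nowhere_two : IsNowhereDense {f : {f : Fin 2 → EuclideanSpace ℝ (Fin 2) //
    Submodule.span ℝ (Set.range f) = ⊤} | DoesWeakPR f.1} := by
  have c := @coord_analytic 2 2
  refine nowhere_of_analytic (P := fun f => f 0 1 ^ 2 * f 1 0 ^ 2 - f 0 0 ^ 2 * f 1 1 ^ 2)
    (D := fun f => f 0 0 * f 1 1 - f 0 1 * f 1 0) (fun x => by fun_prop) (fun x => by fun_prop)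
    (g := ![WithLp.toLp 2 ![1, 0], WithLp.toLp 2 ![0, 1]]) (by simp) ?_ ?_
  · intro f hD
    refine span_top_of fun y hy => ?_
    have h0 := hy 0
    have h1 := hy 1
    simp only [dotProduct, Fin.sum_univ_two] at h0 h1
    funext k
    refine mul_left_cancel₀ hD ?_
    fin_cases k <;> simp only [Fin.zero_eta, Fin.mk_one, Pi.zero_apply]
    · linear_combination f 1 1 * h0 - f 0 1 * h1
    · linear_combination f 0 0 * h1 - f 1 0 * h0
  · intro f hf
    obtain ⟨s, a, -, -, h⟩ := shape_two (sq_of_weak hf)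
    simp only [h]
    simp
    ring

theorem nowhere_three : IsNowhereDense {f : {f : Fin 4 → EuclideanSpace ℝ (Fin 3) //
    Submodule.span ℝ (Set.range f) = ⊤} | DoesWeakPR f.1} := by
  have c := @coord_analytic 4 3
  refine nowhere_of_analytic
    (P := fun f => (f 0 1 * f 1 2 - f 0 2 * f 1 1) ^ 2 * (f 2 2 * f 3 0 - f 2 0 * f 3 2) ^ 2 -
      (f 0 2 * f 1 0 - f 0 0 * f 1 2) ^ 2 * (f 2 1 * f 3 2 - f 2 2 * f 3 1) ^ 2)
    (D := fun f => f 0 0 * (f 1 1 * f 2 2 - f 1 2 * f 2 1) - f 0 1 * (f 1 0 * f 2 2 - f 1 2 * f 2 0)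
      + f 0 2 * (f 1 0 * f 2 1 - f 1 1 * f 2 0)) (fun x => by fun_prop) (fun x => by fun_prop)
    (g := ![WithLp.toLp 2 ![0, 1, 0], WithLp.toLp 2 ![0, 0, 1], WithLp.toLp 2 ![1, 0, 0],
      WithLp.toLp 2 ![0, 0, 1]]) (by simp) ?_ ?_
  · intro f hD
    refine span_top_of fun y hy => ?_
    have h0 := hy 0
    have h1 := hy 1
    have h2 := hy 2
    simp only [dotProduct, Fin.sum_univ_three] at h0 h1 h2
    funext k
    refine mul_left_cancel₀ hD ?_
    fin_cases k <;> simp only [Fin.zero_eta, Fin.mk_one, Fin.reduceFinMk, Pi.zero_apply]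
    · linear_combination (f 1 1 * f 2 2 - f 1 2 * f 2 1) * h0 - (f 0 1 * f 2 2 - f 0 2 * f 2 1) * h1
        + (f 0 1 * f 1 2 - f 0 2 * f 1 1) * h2
    · linear_combination -(f 1 0 * f 2 2 - f 1 2 * f 2 0) * h0 +
        (f 0 0 * f 2 2 - f 0 2 * f 2 0) * h1 - (f 0 0 * f 1 2 - f 0 2 * f 1 0) * h2
    · linear_combination (f 1 0 * f 2 1 - f 1 1 * f 2 0) * h0 - (f 0 0 * f 2 1 - f 0 1 * f 2 0) * h1
        + (f 0 0 * f 1 1 - f 0 1 * f 1 0) * h2
  · intro f hf
    have h := sq_of_weak hf {0, 1} ((f 0).ofLp ⨯₃ (f 1).ofLp) ((f 2).ofLp ⨯₃ (f 3).ofLp)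
      (by simp [dotProduct_comm]) (fun i hi => by
        fin_cases i <;> simp [dotProduct_comm] at hi ⊢) 0 1
    simpa [cross_apply, sub_eq_zero] using h

theorem nowhere_dense (n : ℕ) (hn : 2 ≤ n) :
    IsNowhereDense {f : {f : Fin (2 * n - 2) → EuclideanSpace ℝ (Fin n) //
      Submodule.span ℝ (Set.range f) = ⊤} | DoesWeakPR f.1} := by
  rcases (by omega : n = 2 ∨ n = 3 ∨ 4 ≤ n) with rfl | rfl | h
  · exact nowhere_two
  · exact nowhere_three
  · convert isNowhereDense_empty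
    exact Set.eq_empty_of_forall_notMem fun f hf => no_weak_four n h f.1 hf

end Pool.Agent.MP_e57dcf_an
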