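import Mathlib
import Pool.Agent.MP_e57dcf_an.Defs

-- part MP_e57dcf_an.Core
section

/-! Normals of balanced partitions: no family of `2 n - 2` vectors has proportional squares
of normals when `6 ≤ n`. -/

set_option autoImplicit false
open Finset Matrix

namespace Pool.Agent.MP_e57dcf_an

variable {ι κ : Type} [Fintype ι] [DecidableEq ι] [Fintype κ] [DecidableEq κ]

/-- squares of normals to the two sides of a partition are proportional -/
def Sq (f : ι → κ → ℝ) : Prop :=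
  ∀ (S : Finset ι) (u v : κ → ℝ), (∀ i ∈ S, u ⬝ᵥ f i = 0) → (∀ i, i ∉ S → v ⬝ᵥ f i = 0) →
    ∀ k l, u k ^ 2 * v l ^ 2 = u l ^ 2 * v k ^ 2

omit [DecidableEq κ] in
theorem exists_orth (T : Finset (κ → ℝ)) (h : T.card < Fintype.card κ) :
    ∃ z : κ → ℝ, z ≠ 0 ∧ ∀ w ∈ T, z ⬝ᵥ w = 0 := by
  classical
  let L : (κ → ℝ) →ₗ[ℝ] (T → ℝ) := (Matrix.of fun (w : T) (k : κ) => w.1 k).mulVecLin
  have h1 : Module.finrank ℝ (T → ℝ) < Module.finrank ℝ (κ → ℝ) := by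
    simpa using h
  obtain ⟨z, hz, hz0⟩ := (Submodule.ne_bot_iff _).1 (LinearMap.ker_ne_bot_of_finrank_lt (f := L) h1)
  refine ⟨z, hz0, fun w hw => ?_⟩
  have h2 := congrFun (LinearMap.mem_ker.1 hz) ⟨w, hw⟩
  rw [dotProduct_comm]
  exact h2

variable {f : ι → κ → ℝ}

omit [Fintype ι] [DecidableEq ι] [DecidableEq κ] in
theorem exists_normal (f : ι → κ → ℝ) (S : Finset ι) (h : S.card < Fintype.card κ) :
    ∃ z : κ → ℝ, z ≠ 0 ∧ ∀ i ∈ S, z ⬝ᵥ f i = 0 := by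
  classical
  obtain ⟨z, hz, h2⟩ := exists_orth (S.image f) (card_image_le.trans_lt h)
  exact ⟨z, hz, fun i hi => h2 _ (mem_image_of_mem f hi)⟩

theorem spark (hS : Sq f) (hc : Fintype.card ι + 2 = 2 * Fintype.card κ) {S : Finset ι}
    (h : Fintype.card κ ≤ S.card) {u : κ → ℝ} (hu : ∀ i ∈ S, u ⬝ᵥ f i = 0) : u = 0 := by
  classical
  by_contra hne
  obtain ⟨k, hk⟩ := Function.ne_iff.1 hne
  have h1 : (insert (Pi.single k (1 : ℝ)) (Sᶜ.image f)).card < Fintype.card κ := by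
    have a1 := card_insert_le (Pi.single k (1 : ℝ) : κ → ℝ) (Sᶜ.image f)
    have a2 : (Sᶜ.image f).card ≤ Sᶜ.card := card_image_le
    have a3 := card_add_card_compl S
    omega
  obtain ⟨v, hv, h2⟩ := exists_orth _ h1
  have hk0 : v k = 0 := by simpa using h2 _ (mem_insert_self _ _)
  apply hv
  funext l
  have h3 := hS S u v hu
    (fun i hi => h2 _ (mem_insert_of_mem (mem_image_of_mem f (mem_compl.2 hi)))) k l
  rw [hk0] at h3
  have h4 : u k ^ 2 * v l ^ 2 = 0 := by rw [h3]; ring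
  have h5 : u k ≠ 0 := hk
  simpa [h5] using h4

theorem nz (hS : Sq f) (hc : Fintype.card ι + 2 = 2 * Fintype.card κ) {S : Finset ι}
    (h : S.card + 1 = Fintype.card κ) {u : κ → ℝ} (hu0 : u ≠ 0) (hu : ∀ i ∈ S, u ⬝ᵥ f i = 0)
    {j : ι} (hj : j ∉ S) : u ⬝ᵥ f j ≠ 0 := by
  intro h0
  refine hu0 (spark hS hc (S := insert j S) (by rw [card_insert_of_notMem hj]; omega) ?_)
  intro i hi
  rcases mem_insert.1 hi with rfl | hi
  · exact h0
  · exact hu i hi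

theorem span_all (hS : Sq f) (hc : Fintype.card ι + 2 = 2 * Fintype.card κ) {S : Finset ι}
    (h : S.card + 1 = Fintype.card κ) {u : κ → ℝ} (hu0 : u ≠ 0) (hu : ∀ i ∈ S, u ⬝ᵥ f i = 0)
    {j : ι} (hj : j ∉ S) (g : ι → κ → ℝ) (hg : ∀ i ∈ S, ∀ i' ∈ S, i' ≠ i → g i ⬝ᵥ f i' = 0)
    (hg0 : ∀ i ∈ S, g i ⬝ᵥ f i ≠ 0) {w : κ → ℝ} (hwu : w ⬝ᵥ u = 0)
    (hwg : ∀ i ∈ S, w ⬝ᵥ g i = 0) : w = 0 := by
  set y : κ → ℝ := w - ∑ i ∈ S, (w ⬝ᵥ f i / g i ⬝ᵥ f i) • g i with hy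
  have hy0 : ∀ i ∈ S, y ⬝ᵥ f i = 0 := by
    intro i hi
    rw [hy, sub_dotProduct, sum_dotProduct, sum_eq_single_of_mem i hi]
    · rw [smul_dotProduct, smul_eq_mul, div_mul_cancel₀ _ (hg0 i hi), sub_self]
    · intro b hb hbi
      rw [smul_dotProduct, hg b hb i hi hbi.symm, smul_zero]
  have huj := nz hS hc h hu0 hu hj
  have h1 : y - (y ⬝ᵥ f j / u ⬝ᵥ f j) • u = 0 := by
    refine spark hS hc (S := insert j S) (by rw [card_insert_of_notMem hj]; omega) ?_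
    intro i hi
    rw [sub_dotProduct, smul_dotProduct, smul_eq_mul]
    rcases mem_insert.1 hi with rfl | hi
    · rw [div_mul_cancel₀ _ huj, sub_self]
    · rw [hy0 i hi, hu i hi, mul_zero, sub_self]
  have h2 : w ⬝ᵥ y = 0 := by
    rw [sub_eq_zero.1 h1, dotProduct_smul, hwu, smul_zero]
  rw [hy, dotProduct_sub, dotProduct_sum, sum_eq_zero, sub_zero] at h2
  · exact dotProduct_self_eq_zero.1 h2
  · intro i hi
    rw [dotProduct_smul, hwg i hi, smul_zero]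

omit [Fintype ι] [DecidableEq ι] [DecidableEq κ] in
theorem prop_sq (hS : Sq f) {S : Finset ι} {u v : κ → ℝ} (hu : ∀ i ∈ S, u ⬝ᵥ f i = 0)
    (hv : ∀ i, i ∉ S → v ⬝ᵥ f i = 0) (hv0 : v ≠ 0) : ∃ c : ℝ, ∀ k, u k ^ 2 = c * v k ^ 2 := by
  obtain ⟨l, hl⟩ := Function.ne_iff.1 hv0
  have hl' : v l ≠ 0 := hl
  refine ⟨u l ^ 2 / v l ^ 2, fun k => ?_⟩
  have := hS S u v hu hv k l
  field_simp
  linarith

omit [Fintype ι] [DecidableEq ι] [DecidableEq κ] in
/-- exchanging one vector -/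
theorem swp {S : Finset ι} {u g : κ → ℝ} (hu : ∀ i ∈ S, u ⬝ᵥ f i = 0) {i j : ι}
    (huj : u ⬝ᵥ f j ≠ 0) (hg : ∀ t ∈ S, t ≠ i → g ⬝ᵥ f t = 0) :
    ∀ t, (t = j ∨ (t ∈ S ∧ t ≠ i)) → (g - (g ⬝ᵥ f j / u ⬝ᵥ f j) • u) ⬝ᵥ f t = 0 := by
  intro t ht
  rw [sub_dotProduct, smul_dotProduct, smul_eq_mul]
  rcases ht with rfl | ⟨h1, h2⟩
  · rw [div_mul_cancel₀ _ huj, sub_self]
  · rw [hg t h1 h2, hu t h1, mul_zero, sub_self]

omit [Fintype ι] in
theorem card_swap {S : Finset ι} {i j : ι} (hi : i ∈ S) (hj : j ∉ S) :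
    (insert j (S.erase i)).card = S.card := by
  rw [card_insert_of_notMem (fun h => hj (mem_of_mem_erase h)), card_erase_add_one hi]

/-- the relation between the normals of a neighbouring partition -/
theorem grid (hS : Sq f) (hc : Fintype.card ι + 2 = 2 * Fintype.card κ) {S : Finset ι}
    (h : S.card + 1 = Fintype.card κ) {u v : κ → ℝ} (hu0 : u ≠ 0) (hu : ∀ i ∈ S, u ⬝ᵥ f i = 0)
    (hv0 : v ≠ 0) (hv : ∀ i ∈ Sᶜ, v ⬝ᵥ f i = 0) {i j : ι} (hi : i ∈ S) (hj : j ∉ S)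
    {g e : κ → ℝ} (hg : ∀ t ∈ S, t ≠ i → g ⬝ᵥ f t = 0) (he : ∀ t ∈ Sᶜ, t ≠ j → e ⬝ᵥ f t = 0)
    (he0 : e ⬝ᵥ f j ≠ 0) :
    ∃ c μ : ℝ, ∀ k, (g k - g ⬝ᵥ f j / u ⬝ᵥ f j * u k) ^ 2 = c * (e k - μ * v k) ^ 2 := by
  have hcc : Sᶜ.card + 1 = Fintype.card κ := by
    have := card_add_card_compl S
    omega
  have huj := nz hS hc h hu0 hu hj
  have hvi := nz hS hc hcc hv0 hv (j := i) (by simpa using hi)
  have h1 := swp hu huj hg
  have h2 := swp hv hvi he
  obtain ⟨c, hc'⟩ := prop_sq hS (S := insert j (S.erase i))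
    (u := g - (g ⬝ᵥ f j / u ⬝ᵥ f j) • u) (v := e - (e ⬝ᵥ f i / v ⬝ᵥ f i) • v)
    (fun t ht => h1 t (by
      rcases mem_insert.1 ht with h3 | h3
      · exact Or.inl h3
      · exact Or.inr ⟨mem_of_mem_erase h3, ne_of_mem_erase h3⟩))
    (fun t ht => h2 t (by
      rw [mem_insert, mem_erase] at ht
      rw [mem_compl]
      tauto))
    (fun h0 => he0 (by
      have h3 := congrArg (fun y => y ⬝ᵥ f j) h0
      simp only [sub_dotProduct, smul_dotProduct, hv j (mem_compl.2 hj), smul_zero, sub_zero,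
        zero_dotProduct] at h3
      exact h3))
  exact ⟨c, e ⬝ᵥ f i / v ⬝ᵥ f i, fun k => by simpa using hc' k⟩

/-- every normal has at most five non-zero coordinates -/
theorem supp_five (hS : Sq f) (hc : Fintype.card ι + 2 = 2 * Fintype.card κ)
    (h3 : 3 ≤ Fintype.card κ) {S : Finset ι}
    (h : S.card + 1 = Fintype.card κ) {u : κ → ℝ} (hu0 : u ≠ 0) (hu : ∀ i ∈ S, u ⬝ᵥ f i = 0) :
    Fintype.card κ ≤ (univ.filter fun k => u k = 0).card + 5 := by
  classical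
  by_contra hlt
  have hcc : Sᶜ.card + 1 = Fintype.card κ := by
    have := card_add_card_compl S
    omega
  obtain ⟨j₁, hj₁, j₂, hj₂, hne⟩ := one_lt_card.1 (show 1 < Sᶜ.card by omega)
  obtain ⟨i₀, hi₀⟩ := card_pos.1 (show 0 < S.card by omega)
  have hi₀' : i₀ ∉ Sᶜ := by simpa using hi₀
  obtain ⟨v, hv0, hv⟩ := exists_normal f Sᶜ (by omega)
  have hE : ∀ j ∈ Sᶜ, ∃ e : κ → ℝ, (∀ t ∈ Sᶜ, t ≠ j → e ⬝ᵥ f t = 0) ∧ e ⬝ᵥ f j ≠ 0 := by
    intro j hj
    have hk := card_swap hj hi₀'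
    obtain ⟨e, he0, he⟩ := exists_normal f (insert i₀ (Sᶜ.erase j)) (by omega)
    refine ⟨e, fun t ht htj => he t (mem_insert_of_mem (mem_erase.2 ⟨htj, ht⟩)),
      nz hS hc (by omega) he0 he ?_⟩
    rw [mem_insert, mem_erase]
    rintro (rfl | h1)
    · exact hi₀' hj
    · exact h1.1 rfl
  obtain ⟨e₁, he₁, he₁0⟩ := hE j₁ hj₁
  obtain ⟨e₂, he₂, he₂0⟩ := hE j₂ hj₂
  rw [mem_compl] at hj₁ hj₂
  have hG : ∀ i, ∃ g : κ → ℝ, i ∈ S → (∀ t ∈ S, t ≠ i → g ⬝ᵥ f t = 0) ∧ g ⬝ᵥ f j₁ = 0 ∧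
      g ⬝ᵥ f i ≠ 0 ∧ g ⬝ᵥ f j₂ ≠ 0 := by
    intro i
    by_cases hi : i ∈ S
    · have hk := card_swap hi hj₁
      obtain ⟨g, hg0, hg⟩ := exists_normal f (insert j₁ (S.erase i)) (by omega)
      refine ⟨g, fun _ => ⟨fun t ht hti => hg t (mem_insert_of_mem (mem_erase.2 ⟨hti, ht⟩)),
        hg _ (mem_insert_self _ _), nz hS hc (by omega) hg0 hg ?_, nz hS hc (by omega) hg0 hg ?_⟩⟩
      · rw [mem_insert, mem_erase]
        rintro (rfl | h1)
        · exact hj₁ hi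
        · exact h1.1 rfl
      · rw [mem_insert, mem_erase]
        rintro (h1 | h1)
        · exact hne h1.symm
        · exact hj₂ h1.2
    · exact ⟨0, fun h => absurd h hi⟩
  choose g hg using hG
  set Z := univ.filter fun k => u k = 0 with hZ
  set T : Finset (κ → ℝ) := insert (v * v) (insert (e₁ * e₁) (insert (v * e₁) (insert (e₂ * e₂)
    (insert (v * e₂) (Z.image fun k => (Pi.single k (1 : ℝ) : κ → ℝ)))))) with hT
  have hTc : T.card < Fintype.card κ := by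
    have a0 : (Z.image fun k => (Pi.single k (1 : ℝ) : κ → ℝ)).card ≤ Z.card := card_image_le
    have a1 := card_insert_le (v * e₂) (Z.image fun k => (Pi.single k (1 : ℝ) : κ → ℝ))
    have a2 := card_insert_le (e₂ * e₂)
      (insert (v * e₂) (Z.image fun k => (Pi.single k (1 : ℝ) : κ → ℝ)))
    have a3 := card_insert_le (v * e₁) (insert (e₂ * e₂)
      (insert (v * e₂) (Z.image fun k => (Pi.single k (1 : ℝ) : κ → ℝ))))
    have a4 := card_insert_le (e₁ * e₁) (insert (v * e₁) (insert (e₂ * e₂)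
      (insert (v * e₂) (Z.image fun k => (Pi.single k (1 : ℝ) : κ → ℝ)))))
    have a5 := card_insert_le (v * v) (insert (e₁ * e₁) (insert (v * e₁) (insert (e₂ * e₂)
      (insert (v * e₂) (Z.image fun k => (Pi.single k (1 : ℝ) : κ → ℝ))))))
    rw [hT]
    omega
  obtain ⟨z, hz0, hz⟩ := exists_orth T hTc
  have z1 : ∑ k, z k * (v k * v k) = 0 := hz (v * v) (by simp [hT])
  have z2 : ∑ k, z k * (e₁ k * e₁ k) = 0 := hz (e₁ * e₁) (by simp [hT])
  have z3 : ∑ k, z k * (v k * e₁ k) = 0 := hz (v * e₁) (by simp [hT])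
  have z4 : ∑ k, z k * (e₂ k * e₂ k) = 0 := hz (e₂ * e₂) (by simp [hT])
  have z5 : ∑ k, z k * (v k * e₂ k) = 0 := hz (v * e₂) (by simp [hT])
  have z6 : ∀ k, u k = 0 → z k = 0 := by
    intro k hk
    have h1 : (Pi.single k (1 : ℝ) : κ → ℝ) ∈ T := by
      rw [hT]
      iterate 5 apply mem_insert_of_mem
      exact mem_image_of_mem _ (by simp [hZ, hk])
    simpa using hz _ h1
  obtain ⟨c₀, hc₀⟩ := prop_sq hS hu (fun i hi => hv i (mem_compl.2 hi)) hv0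
  have hw : z * u = 0 := by
    refine span_all hS hc h hu0 hu hj₁ g (fun i hi t ht hti => (hg i hi).1 t ht hti)
      (fun i hi => (hg i hi).2.2.1) ?_ ?_
    · have h1 : (z * u) ⬝ᵥ u = c₀ * ∑ k, z k * (v k * v k) := by
        rw [mul_sum]
        refine sum_congr rfl fun k _ => ?_
        have := hc₀ k
        simp only [Pi.mul_apply]
        linear_combination z k * this
      rw [h1, z1, mul_zero]
    · intro i hi
      obtain ⟨g1, g2, -, g4⟩ := hg i hi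
      obtain ⟨c₁, μ₁, r₁⟩ := grid hS hc h hu0 hu hv0 hv hi hj₁ g1 he₁ he₁0
      obtain ⟨c₂, μ₂, r₂⟩ := grid hS hc h hu0 hu hv0 hv hi hj₂ g1 he₂ he₂0
      rw [g2, zero_div] at r₁
      have hl : g i ⬝ᵥ f j₂ / u ⬝ᵥ f j₂ ≠ 0 := div_ne_zero g4 (nz hS hc h hu0 hu hj₂)
      generalize g i ⬝ᵥ f j₂ / u ⬝ᵥ f j₂ = l at r₂ hl
      have h1 : 2 * l * ((z * u) ⬝ᵥ g i) =
          (l ^ 2 * c₀ + c₁ * μ₁ ^ 2 - c₂ * μ₂ ^ 2) * ∑ k, z k * (v k * v k)
          + c₁ * ∑ k, z k * (e₁ k * e₁ k) - 2 * c₁ * μ₁ * ∑ k, z k * (v k * e₁ k)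
          - c₂ * ∑ k, z k * (e₂ k * e₂ k) + 2 * c₂ * μ₂ * ∑ k, z k * (v k * e₂ k) := by
        simp only [dotProduct, mul_sum, ← sum_add_distrib, ← sum_sub_distrib]
        refine sum_congr rfl fun k _ => ?_
        simp only [Pi.mul_apply]
        linear_combination z k * (l ^ 2 * hc₀ k + r₁ k - r₂ k)
      rw [z1, z2, z3, z4, z5] at h1
      have h2 : 2 * l * ((z * u) ⬝ᵥ g i) = 0 := by rw [h1]; ring
      simpa [hl] using h2
  apply hz0
  funext k
  by_cases hk : u k = 0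
  · exact z6 k hk
  · have h1 : z k * u k = 0 := congrFun hw k
    simpa [hk] using h1

/-- two normals through a common set of `n - 2` vectors have no common zero coordinate -/
theorem no_common_zero (hS : Sq f) (hc : Fintype.card ι + 2 = 2 * Fintype.card κ)
    {T : Finset ι} (h : T.card + 2 = Fintype.card κ) {j₀ j₁ : ι} (h₀ : j₀ ∉ T) (h₁ : j₁ ∉ T)
    (hne : j₀ ≠ j₁) {u a : κ → ℝ} (hu0 : u ≠ 0) (hu : ∀ i ∈ insert j₀ T, u ⬝ᵥ f i = 0)
    (ha0 : a ≠ 0) (ha : ∀ i ∈ insert j₁ T, a ⬝ᵥ f i = 0) {k : κ} (huk : u k = 0)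
    (hak : a k = 0) : False := by
  set S := insert j₀ T with hSdef
  have hSc : S.card + 1 = Fintype.card κ := by rw [hSdef, card_insert_of_notMem h₀]; omega
  have hcc : Sᶜ.card + 1 = Fintype.card κ := by
    have := card_add_card_compl S
    omega
  have key : ∀ (R : Finset ι) (p q : κ → ℝ), p ≠ 0 → (∀ i ∈ R, p ⬝ᵥ f i = 0) →
      (∀ i, i ∉ R → q ⬝ᵥ f i = 0) → p k = 0 → q k = 0 := by
    intro R p q hp0 hp hq hpk
    obtain ⟨l, hl⟩ := Function.ne_iff.1 hp0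
    have hl' : p l ≠ 0 := hl
    have h2 := hS R p q hp hq k l
    rw [hpk] at h2
    have h3 : p l ^ 2 * q k ^ 2 = 0 := by rw [← h2]; ring
    simpa [hl'] using h3
  obtain ⟨v, hv0, hv⟩ := exists_normal f Sᶜ (by omega)
  have hvk : v k = 0 := key S u v hu0 hu (fun i hi => hv i (mem_compl.2 hi)) huk
  have haj : a ⬝ᵥ f j₀ ≠ 0 := by
    refine nz hS hc (by rw [card_insert_of_notMem h₁]; omega) ha0 ha ?_
    rw [mem_insert]
    tauto
  have hj₀S : j₀ ∈ S := mem_insert_self _ _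
  have hB : ∀ j, ∃ b : κ → ℝ, j ∈ Sᶜ → (∀ t ∈ Sᶜ, t ≠ j → b ⬝ᵥ f t = 0) ∧ b ⬝ᵥ f j ≠ 0 ∧
      b k = 0 := by
    intro j
    by_cases hj : j ∈ Sᶜ
    · have hj' : j ∉ S := mem_compl.1 hj
      have hk := card_swap hj (show j₀ ∉ Sᶜ by simp [hj₀S])
      obtain ⟨b, hb0, hb⟩ := exists_normal f (insert j₀ (Sᶜ.erase j)) (by omega)
      refine ⟨b, fun _ => ⟨fun t ht htj => hb t (mem_insert_of_mem (mem_erase.2 ⟨htj, ht⟩)),
        nz hS hc (by omega) hb0 hb ?_, ?_⟩⟩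
      · rw [mem_insert, mem_erase]
        rintro (rfl | h1)
        · exact hj' hj₀S
        · exact h1.1 rfl
      · have huj := nz hS hc hSc hu0 hu hj'
        have h1 := swp (i := j₀) (g := a) hu huj (fun t ht htj => ha t (by
          rcases mem_insert.1 ht with h2 | h2
          · exact absurd h2 htj
          · exact mem_insert_of_mem h2))
        refine key (insert j T) (a - (a ⬝ᵥ f j / u ⬝ᵥ f j) • u) b ?_ ?_ ?_ ?_
        · intro h0
          have h3 := congrArg (fun y => y ⬝ᵥ f j₀) h0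
          simp only [sub_dotProduct, smul_dotProduct, hu j₀ hj₀S, smul_zero, sub_zero,
            zero_dotProduct] at h3
          exact haj h3
        · intro t ht
          refine h1 t ?_
          rcases mem_insert.1 ht with h2 | h2
          · exact Or.inl h2
          · exact Or.inr ⟨mem_insert_of_mem h2, fun h4 => h₀ (h4 ▸ h2)⟩
        · intro t ht
          refine hb t ?_
          rw [mem_insert] at ht
          rw [mem_insert, mem_erase, mem_compl, hSdef, mem_insert]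
          tauto
        · simp [hak, huk]
    · exact ⟨0, fun h => absurd h hj⟩
  choose b hb using hB
  have h5 : (Pi.single k (1 : ℝ) : κ → ℝ) = 0 := by
    refine span_all hS hc hcc hv0 hv (j := j₀) (by simp [hj₀S]) b
      (fun i hi t ht hti => (hb i hi).1 t ht hti) (fun i hi => (hb i hi).2.1) ?_ ?_
    · simpa using hvk
    · intro i hi
      simpa using (hb i hi).2.2
  have h6 := congrFun h5 k
  simp at h6

theorem not_sq (hc : Fintype.card ι + 2 = 2 * Fintype.card κ) (h6 : 6 ≤ Fintype.card κ) :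
    ¬ Sq f := by
  intro hS
  have hN : ∀ S : Finset ι, ∃ u : κ → ℝ, S.card + 1 = Fintype.card κ →
      u ≠ 0 ∧ ∀ i ∈ S, u ⬝ᵥ f i = 0 := by
    intro S
    by_cases h : S.card + 1 = Fintype.card κ
    · obtain ⟨u, hu⟩ := exists_normal f S (by omega)
      exact ⟨u, fun _ => hu⟩
    · exact ⟨0, fun h' => absurd h' h⟩
  choose N hN using hN
  have hins : ∀ {T : Finset ι}, T.card + 2 = Fintype.card κ → ∀ {j : ι}, j ∉ T →
      (insert j T).card + 1 = Fintype.card κ := by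
    intro T hT j hj
    rw [card_insert_of_notMem hj]
    omega
  have huniq : ∀ {T : Finset ι}, T.card + 2 = Fintype.card κ → ∀ {j j' : ι}, j ∉ T → j' ∉ T →
      ∀ {k : κ}, N (insert j T) k = 0 → N (insert j' T) k = 0 → j = j' := by
    intro T hT j j' hj hj' k h1 h2
    by_contra hne
    exact no_common_zero hS hc hT hj hj' hne (hN _ (hins hT hj)).1 (hN _ (hins hT hj)).2
      (hN _ (hins hT hj')).1 (hN _ (hins hT hj')).2 h1 h2
  have hcount : ∀ {T : Finset ι}, T.card + 2 = Fintype.card κ →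
      Fintype.card κ * (Fintype.card κ - 5) ≤
        (Tᶜ.biUnion fun j => univ.filter fun k => N (insert j T) k = 0).card := by
    intro T hT
    have h1 : Tᶜ.card = Fintype.card κ := by
      have := card_add_card_compl T
      omega
    rw [card_biUnion]
    · rw [← h1, ← smul_eq_mul]
      refine card_nsmul_le_sum _ _ _ fun j hj => ?_
      have hj' := mem_compl.1 hj
      have := supp_five hS hc (by omega) (hins hT hj') (hN _ (hins hT hj')).1
        (hN _ (hins hT hj')).2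
      omega
    · intro j hj j' hj' hne
      refine disjoint_left.2 fun k h2 h3 => hne ?_
      exact huniq hT (mem_compl.1 hj) (mem_compl.1 hj') (mem_filter.1 h2).2 (mem_filter.1 h3).2
  have hn : Fintype.card κ = 6 := by
    obtain ⟨T, -, hT⟩ := exists_subset_card_eq (s := (univ : Finset ι))
      (n := Fintype.card κ - 2) (by rw [card_univ]; omega)
    have h1 := (hcount (T := T) (by omega)).trans (card_le_univ _)
    by_contra h2
    have h3 : 2 ≤ Fintype.card κ - 5 := by omega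
    have h4 := Nat.mul_le_mul_left (Fintype.card κ) h3
    omega
  obtain ⟨k⟩ : Nonempty κ := Fintype.card_pos_iff.1 (by omega)
  have hex : ∀ T : Finset ι, ∃ j, T.card + 2 = Fintype.card κ →
      j ∉ T ∧ N (insert j T) k = 0 := by
    intro T
    by_cases hT : T.card + 2 = Fintype.card κ
    · by_contra hno
      push Not at hno
      have h1 : (Tᶜ.biUnion fun j => univ.filter fun k => N (insert j T) k = 0) ⊆
          univ.erase k := by
        intro l hl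
        obtain ⟨j, hj, h2⟩ := mem_biUnion.1 hl
        refine mem_erase.2 ⟨?_, mem_univ _⟩
        rintro rfl
        exact (hno j).2 (mem_compl.1 hj) (mem_filter.1 h2).2
      have h2 := (hcount hT).trans (card_le_card h1)
      rw [card_erase_of_mem (mem_univ _), card_univ, hn] at h2
      omega
    · obtain ⟨j⟩ : Nonempty ι := Fintype.card_pos_iff.1 (by omega)
      exact ⟨j, fun h => absurd h hT⟩
  choose φ hφ using hex
  obtain ⟨R, -, hR⟩ := exists_subset_card_eq (s := (univ : Finset ι)) (n := 3)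
    (by rw [card_univ]; omega)
  have hRc : Rᶜ.card = 7 := by
    have := card_add_card_compl R
    omega
  have hT : ∀ a ∈ Rᶜ, (insert a R).card + 2 = Fintype.card κ := by
    intro a ha
    rw [card_insert_of_notMem (mem_compl.1 ha)]
    omega
  have hmem : ∀ a ∈ Rᶜ, φ (insert a R) ∈ Rᶜ := fun a ha =>
    mem_compl.2 fun h => (hφ _ (hT a ha)).1 (mem_insert_of_mem h)
  have hne : ∀ a ∈ Rᶜ, φ (insert a R) ≠ a := fun a ha h =>
    (hφ _ (hT a ha)).1 (by rw [h]; exact mem_insert_self _ _)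
  have hsum : ∑ _a ∈ Rᶜ, (1 : ZMod 2) = 0 := by
    refine sum_involution (fun a _ => φ (insert a R)) (fun _ _ => rfl) (fun a ha _ => hne a ha)
      hmem fun a ha => ?_
    have h1 := hφ _ (hT _ (hmem a ha))
    refine huniq (hT _ (hmem a ha)) h1.1 ?_ h1.2 ?_
    · rw [mem_insert]
      rintro (h2 | h2)
      · exact hne a ha h2.symm
      · exact mem_compl.1 ha h2
    · rw [Finset.insert_comm]
      exact (hφ _ (hT a ha)).2
  rw [sum_const, hRc] at hsum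
  exact absurd hsum (by decide)

end Pool.Agent.MP_e57dcf_an

end

-- part MP_e57dcf_an.Main
section

/-! Weak phase retrieval forces proportional squares of normals. -/

set_option autoImplicit false
open Finset Matrix

namespace Pool.Agent.MP_e57dcf_an

theorem inner_eq_dot {n : ℕ} (x y : EuclideanSpace ℝ (Fin n)) :
    inner ℝ x y = x.ofLp ⬝ᵥ y.ofLp := by
  rw [EuclideanSpace.inner_eq_star_dotProduct, dotProduct_comm]
  simp

theorem sign_mul_nonneg {θ a b c d : ℝ} (hθ : θ = 1 ∨ θ = -1)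
    (h1 : a * b ≠ 0 → Real.sign a = θ * Real.sign b)
    (h2 : c * d ≠ 0 → Real.sign c = θ * Real.sign d) : 0 ≤ (a * b) * (c * d) := by
  have key : ∀ a b : ℝ, (a * b ≠ 0 → Real.sign a = θ * Real.sign b) → 0 ≤ θ * (a * b) := by
    intro a b h
    by_cases h0 : a * b = 0
    · rw [h0, mul_zero]
    have h3 := h h0
    have ha : a ≠ 0 := left_ne_zero_of_mul h0
    have hb : b ≠ 0 := right_ne_zero_of_mul h0
    rcases ha.lt_or_gt with ha | ha <;> rcases hb.lt_or_gt with hb | hb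
    · rw [Real.sign_of_neg ha, Real.sign_of_neg hb] at h3
      have := mul_pos_of_neg_of_neg ha hb
      have h4 : θ = 1 := by linarith
      rw [h4]; linarith
    · rw [Real.sign_of_neg ha, Real.sign_of_pos hb] at h3
      have := mul_neg_of_neg_of_pos ha hb
      have h4 : θ = -1 := by linarith
      rw [h4]; linarith
    · rw [Real.sign_of_pos ha, Real.sign_of_neg hb] at h3
      have := mul_neg_of_pos_of_neg ha hb
      have h4 : θ = -1 := by linarith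
      rw [h4]; linarith
    · rw [Real.sign_of_pos ha, Real.sign_of_pos hb] at h3
      have := mul_pos ha hb
      have h4 : θ = 1 := by linarith
      rw [h4]; linarith
  have h3 := mul_nonneg (key a b h1) (key c d h2)
  have h4 : θ * θ = 1 := by rcases hθ with rfl | rfl <;> norm_num
  calc (0 : ℝ) ≤ θ * (a * b) * (θ * (c * d)) := h3
    _ = (θ * θ) * ((a * b) * (c * d)) := by ring
    _ = (a * b) * (c * d) := by rw [h4, one_mul]

theorem sq_of_weak {n m : ℕ} {f : Fin m → EuclideanSpace ℝ (Fin n)} (hf : DoesWeakPR f) :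
    Sq fun i => (f i).ofLp := by
  intro S u v hu hv k l
  set a : ℝ := Real.sqrt (v k ^ 2 + v l ^ 2) with ha
  set b : ℝ := Real.sqrt (u k ^ 2 + u l ^ 2) with hb
  have ha2 : a ^ 2 = v k ^ 2 + v l ^ 2 := Real.sq_sqrt (by positivity)
  have hb2 : b ^ 2 = u k ^ 2 + u l ^ 2 := Real.sq_sqrt (by positivity)
  obtain ⟨θ, hθ, h⟩ := hf (WithLp.toLp 2 (a • u + b • v)) (WithLp.toLp 2 (a • u - b • v)) (by
    intro i
    rw [inner_eq_dot, inner_eq_dot]
    simp only [add_dotProduct, sub_dotProduct, smul_dotProduct]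
    by_cases hi : i ∈ S
    · rw [hu i hi, smul_zero, zero_add, zero_sub, abs_neg]
    · rw [hv i hi, smul_zero, add_zero, sub_zero])
  have h1 := sign_mul_nonneg hθ (h k) (h l)
  simp only [Pi.add_apply, Pi.sub_apply, Pi.smul_apply, smul_eq_mul] at h1
  have e1 : (a * u k + b * v k) * (a * u k - b * v k) = u k ^ 2 * v l ^ 2 - u l ^ 2 * v k ^ 2 := by
    linear_combination u k ^ 2 * ha2 - v k ^ 2 * hb2
  have e2 : (a * u l + b * v l) * (a * u l - b * v l) =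
      -(u k ^ 2 * v l ^ 2 - u l ^ 2 * v k ^ 2) := by
    linear_combination u l ^ 2 * ha2 - v l ^ 2 * hb2
  rw [e1, e2] at h1
  have h2 : (u k ^ 2 * v l ^ 2 - u l ^ 2 * v k ^ 2) ^ 2 = 0 := by
    apply le_antisymm _ (sq_nonneg _)
    nlinarith
  exact sub_eq_zero.1 (pow_eq_zero_iff two_ne_zero |>.1 h2)

theorem no_weak (n : ℕ) (hn : 6 ≤ n) (f : Fin (2 * n - 2) → EuclideanSpace ℝ (Fin n)) :
    ¬ DoesWeakPR f := fun hf =>
  not_sq (by simp only [Fintype.card_fin]; omega) (by simpa using hn) (sq_of_weak hf)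

end Pool.Agent.MP_e57dcf_an

end

-- part MP_e57dcf_an.H70.Four
section

/-! Six vectors of four-dimensional space never have proportional squares of normals. -/

set_option autoImplicit false
open Finset Matrix

namespace Pool.Agent.MP_e57dcf_an

variable {ι κ : Type} [Fintype ι] [DecidableEq ι] [Fintype κ] [DecidableEq κ] {f : ι → κ → ℝ}

/-- the symmetrised product of two coordinates -/
def Bf (k l : κ) (u v : κ → ℝ) : ℝ := u k * v l + u l * v k

/-- the form vanishes on the normals of the partition given by `S` -/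
def Van (f : ι → κ → ℝ) (k l : κ) (S : Finset ι) : Prop :=
  ∀ u v : κ → ℝ, (∀ i ∈ S, u ⬝ᵥ f i = 0) → (∀ i, i ∉ S → v ⬝ᵥ f i = 0) → Bf k l u v = 0

/-- the form is diagonal with respect to the family -/
def Null (f : ι → κ → ℝ) (k l : κ) : Prop :=
  ∃ c : ι → ℝ, ∀ u v : κ → ℝ, Bf k l u v = ∑ i, c i * (u ⬝ᵥ f i * v ⬝ᵥ f i)

omit [DecidableEq κ] in
theorem Van.compl {k l : κ} {S : Finset ι} (h : Van f k l S) : Van f k l Sᶜ := by
  intro u v hu hv
  have := h v u (fun i hi => hv i (by simpa using hi)) (fun i hi => hu i (mem_compl.2 hi))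
  unfold Bf at this ⊢
  linarith

theorem sym_solve {x1 x2 x3 x4 y1 y2 y3 y4 E12 E13 E14 E23 E24 E34 : ℝ}
    (h12 : x1 * y2 - x2 * y1 ≠ 0) (h13 : x1 * y3 - x3 * y1 ≠ 0) (h23 : x2 * y3 - x3 * y2 ≠ 0)
    (e1 : (x3 * y4 - x4 * y3) * E12 + (x4 * y2 - x2 * y4) * E13 + (x2 * y3 - x3 * y2) * E14 = 0)
    (e2 : (x3 * y4 - x4 * y3) * E12 + (x4 * y1 - x1 * y4) * E23 + (x1 * y3 - x3 * y1) * E24 = 0)
    (e3 : (x2 * y4 - x4 * y2) * E13 + (x4 * y1 - x1 * y4) * E23 + (x1 * y2 - x2 * y1) * E34 = 0) :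
    ∃ α β γ : ℝ, E12 = α * (x1 * x2) + β * (y1 * y2) + γ * (x1 * y2 + y1 * x2) ∧
      E13 = α * (x1 * x3) + β * (y1 * y3) + γ * (x1 * y3 + y1 * x3) ∧
      E23 = α * (x2 * x3) + β * (y2 * y3) + γ * (x2 * y3 + y2 * x3) ∧
      E14 = α * (x1 * x4) + β * (y1 * y4) + γ * (x1 * y4 + y1 * x4) ∧
      E24 = α * (x2 * x4) + β * (y2 * y4) + γ * (x2 * y4 + y2 * x4) ∧
      E34 = α * (x3 * x4) + β * (y3 * y4) + γ * (x3 * y4 + y3 * x4) := by
  obtain ⟨A1, hA1⟩ : ∃ A, A * ((x1 * y2 - x2 * y1) * (x1 * y3 - x3 * y1)) = E23 :=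
    ⟨_, div_mul_cancel₀ _ (mul_ne_zero h12 h13)⟩
  obtain ⟨A2, hA2⟩ : ∃ A, A * ((x1 * y2 - x2 * y1) * (x2 * y3 - x3 * y2)) = -E13 :=
    ⟨_, div_mul_cancel₀ _ (mul_ne_zero h12 h23)⟩
  obtain ⟨A3, hA3⟩ : ∃ A, A * ((x1 * y3 - x3 * y1) * (x2 * y3 - x3 * y2)) = E12 :=
    ⟨_, div_mul_cancel₀ _ (mul_ne_zero h13 h23)⟩
  refine ⟨A1 * y1 ^ 2 + A2 * y2 ^ 2 + A3 * y3 ^ 2, A1 * x1 ^ 2 + A2 * x2 ^ 2 + A3 * x3 ^ 2,
    -(A1 * x1 * y1 + A2 * x2 * y2 + A3 * x3 * y3), by linear_combination -hA3,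
    by linear_combination hA2, by linear_combination -hA1, ?_, ?_, ?_⟩
  · refine mul_left_cancel₀ h23 ?_
    linear_combination e1 + (x3 * y4 - x4 * y3) * hA3 - (x4 * y2 - x2 * y4) * hA2
  · refine mul_left_cancel₀ h13 ?_
    linear_combination e2 + (x3 * y4 - x4 * y3) * hA3 + (x4 * y1 - x1 * y4) * hA1
  · refine mul_left_cancel₀ h12 ?_
    linear_combination e3 - (x2 * y4 - x4 * y2) * hA2 + (x4 * y1 - x1 * y4) * hA1

theorem spark4 (hS : Sq f) (hc : Fintype.card ι + 2 = 2 * Fintype.card κ)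
    (h4 : Fintype.card κ = 4) {a b c d : ι} (ab : a ≠ b) (ac : a ≠ c) (ad : a ≠ d) (bc : b ≠ c)
    (bd : b ≠ d) (cd : c ≠ d) {y : κ → ℝ} (ya : y ⬝ᵥ f a = 0) (yb : y ⬝ᵥ f b = 0)
    (yc : y ⬝ᵥ f c = 0) (yd : y ⬝ᵥ f d = 0) : y = 0 :=
  spark hS hc (S := {a, b, c, d}) (by
    rw [card_insert_of_notMem (by simp [ab, ac, ad]), card_eq_three.2 ⟨b, c, d, bc, bd, cd, rfl⟩]
    omega) (by simp [ya, yb, yc, yd])

theorem dual4 (hS : Sq f) (hc : Fintype.card ι + 2 = 2 * Fintype.card κ)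
    (h4 : Fintype.card κ = 4) {a b c d : ι} (ab : a ≠ b) (ac : a ≠ c) (ad : a ≠ d) (bc : b ≠ c)
    (bd : b ≠ d) (cd : c ≠ d) :
    ∃ w : κ → ℝ, w ⬝ᵥ f a = 1 ∧ w ⬝ᵥ f b = 0 ∧ w ⬝ᵥ f c = 0 ∧ w ⬝ᵥ f d = 0 := by
  obtain ⟨y, y0, hy⟩ := exists_normal f {b, c, d} (card_le_three.trans_lt (by omega))
  have yb := hy b (by simp)
  have yc := hy c (by simp)
  have yd := hy d (by simp)
  have ya : y ⬝ᵥ f a ≠ 0 := fun h => y0 (spark4 hS hc h4 ab ac ad bc bd cd h yb yc yd)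
  exact ⟨(y ⬝ᵥ f a)⁻¹ • y, by simp [ya], by simp [yb], by simp [yc], by simp [yd]⟩

theorem null_of_van (hS : Sq f) (hc : Fintype.card ι + 2 = 2 * Fintype.card κ)
    (h4 : Fintype.card κ = 4) {k l : κ} {a b c d e g : ι} (hn : [a, b, c, d, e, g].Nodup)
    (hall : ∀ x, x ∈ [a, b, c, d, e, g]) (V1 : Van f k l {a, b, c}) (V2 : Van f k l {a, b, d})
    (V3 : Van f k l {a, b, e}) {S : Finset ι} (hS3 : S.card = 3) (ha : a ∈ S) (hb : b ∉ S)
    (V4 : Van f k l S) : Null f k l := by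
  simp only [List.nodup_cons, List.mem_cons, List.not_mem_nil, or_false, not_or] at hn hall
  obtain ⟨⟨ab, ac, ad, ae, ag⟩, ⟨bc, bd, be, bg⟩, ⟨cd, ce, cg⟩, ⟨de, dg⟩, eg, -⟩ := hn
  obtain ⟨w1, p11, p12, p13, p14⟩ := dual4 hS hc h4 cd ce cg de dg eg
  obtain ⟨w2, p22, p21, p23, p24⟩ := dual4 hS hc h4 (Ne.symm cd) de dg ce cg eg
  obtain ⟨w3, p33, p31, p32, p34⟩ := dual4 hS hc h4 (Ne.symm ce) (Ne.symm de) eg cd cg dg
  obtain ⟨w4, p44, p41, p42, p43⟩ :=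
    dual4 hS hc h4 (Ne.symm cg) (Ne.symm dg) (Ne.symm eg) cd ce de
  have h12 : w1 ⬝ᵥ f a * w2 ⬝ᵥ f b - w2 ⬝ᵥ f a * w1 ⬝ᵥ f b ≠ 0 := by
    intro h
    have h1 := spark4 hS hc h4 ab ae ag be bg eg (y := (w2 ⬝ᵥ f b) • w1 - (w1 ⬝ᵥ f b) • w2)
      (by simp; linarith) (by simp; ring) (by simp [*]) (by simp [*])
    have h2 : w2 ⬝ᵥ f b = 0 := by simpa [p11, p21] using congrArg (· ⬝ᵥ f c) h1
    have h3 := spark4 hS hc h4 bc be bg ce cg eg h2 p21 p23 p24
    simp [h3] at p22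
  have h13 : w1 ⬝ᵥ f a * w3 ⬝ᵥ f b - w3 ⬝ᵥ f a * w1 ⬝ᵥ f b ≠ 0 := by
    intro h
    have h1 := spark4 hS hc h4 ab ad ag bd bg dg (y := (w3 ⬝ᵥ f b) • w1 - (w1 ⬝ᵥ f b) • w3)
      (by simp; linarith) (by simp; ring) (by simp [*]) (by simp [*])
    have h2 : w3 ⬝ᵥ f b = 0 := by simpa [p11, p31] using congrArg (· ⬝ᵥ f c) h1
    have h3 := spark4 hS hc h4 bc bd bg cd cg dg h2 p31 p32 p34
    simp [h3] at p33
  have h23 : w2 ⬝ᵥ f a * w3 ⬝ᵥ f b - w3 ⬝ᵥ f a * w2 ⬝ᵥ f b ≠ 0 := by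
    intro h
    have h1 := spark4 hS hc h4 ab ac ag bc bg cg (y := (w3 ⬝ᵥ f b) • w2 - (w2 ⬝ᵥ f b) • w3)
      (by simp; linarith) (by simp; ring) (by simp [*]) (by simp [*])
    have h2 : w3 ⬝ᵥ f b = 0 := by simpa [p22, p32] using congrArg (· ⬝ᵥ f d) h1
    have h3 := spark4 hS hc h4 bc bd bg cd cg dg h2 p31 p32 p34
    simp [h3] at p33
  generalize hx1 : w1 ⬝ᵥ f a = x1, hx2 : w2 ⬝ᵥ f a = x2, hx3 : w3 ⬝ᵥ f a = x3,
    hx4 : w4 ⬝ᵥ f a = x4, hy1 : w1 ⬝ᵥ f b = y1, hy2 : w2 ⬝ᵥ f b = y2, hy3 : w3 ⬝ᵥ f b = y3,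
    hy4 : w4 ⬝ᵥ f b = y4 at h12 h13 h23
  have e1 := V1 ((x3 * y4 - x4 * y3) • w2 + (x4 * y2 - x2 * y4) • w3 + (x2 * y3 - x3 * y2) • w4)
    w1 (by simp [*]; constructor <;> ring) (fun i hi => by
      rcases hall i with rfl | rfl | rfl | rfl | rfl | rfl <;> simp [*] at hi ⊢)
  have e2 := V2 ((x3 * y4 - x4 * y3) • w1 + (x4 * y1 - x1 * y4) • w3 + (x1 * y3 - x3 * y1) • w4)
    w2 (by simp [*]; constructor <;> ring) (fun i hi => by
      rcases hall i with rfl | rfl | rfl | rfl | rfl | rfl <;> simp [*] at hi ⊢)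
  have e3 := V3 ((x2 * y4 - x4 * y2) • w1 + (x4 * y1 - x1 * y4) • w2 + (x1 * y2 - x2 * y1) • w4)
    w3 (by simp [*]; constructor <;> ring) (fun i hi => by
      rcases hall i with rfl | rfl | rfl | rfl | rfl | rfl <;> simp [*] at hi ⊢)
  simp only [Bf, Pi.add_apply, Pi.smul_apply, smul_eq_mul] at e1 e2 e3
  have ex : ∀ u : κ → ℝ, u = (u ⬝ᵥ f c) • w1 + (u ⬝ᵥ f d) • w2 + (u ⬝ᵥ f e) • w3 +
      (u ⬝ᵥ f g) • w4 := fun u => sub_eq_zero.1 (spark4 hS hc h4 cd ce cg de dg eg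
        (by simp [*]) (by simp [*]) (by simp [*]) (by simp [*]))
  have xa := fun u => congrArg (· ⬝ᵥ f a) (ex u)
  have xb := fun u => congrArg (· ⬝ᵥ f b) (ex u)
  simp only [add_dotProduct, smul_dotProduct, smul_eq_mul, hx1, hx2, hx3, hx4, hy1, hy2, hy3,
    hy4] at xa xb
  obtain ⟨α, β, γ, q12, q13, q23, q14, q24, q34⟩ := sym_solve (x4 := x4) (y4 := y4)
    (E12 := Bf k l w1 w2) (E13 := Bf k l w1 w3) (E14 := Bf k l w1 w4) (E23 := Bf k l w2 w3)
    (E24 := Bf k l w2 w4) (E34 := Bf k l w3 w4) h12 h13 h23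
    (by unfold Bf; linear_combination e1) (by unfold Bf; linear_combination e2)
    (by unfold Bf; linear_combination e3)
  have main : ∀ u v : κ → ℝ, Bf k l u v = α * (u ⬝ᵥ f a * v ⬝ᵥ f a) + β * (u ⬝ᵥ f b * v ⬝ᵥ f b) +
      (Bf k l w1 w1 - (α * x1 ^ 2 + β * y1 ^ 2 + 2 * γ * x1 * y1)) * (u ⬝ᵥ f c * v ⬝ᵥ f c) +
      (Bf k l w2 w2 - (α * x2 ^ 2 + β * y2 ^ 2 + 2 * γ * x2 * y2)) * (u ⬝ᵥ f d * v ⬝ᵥ f d) +
      (Bf k l w3 w3 - (α * x3 ^ 2 + β * y3 ^ 2 + 2 * γ * x3 * y3)) * (u ⬝ᵥ f e * v ⬝ᵥ f e) +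
      (Bf k l w4 w4 - (α * x4 ^ 2 + β * y4 ^ 2 + 2 * γ * x4 * y4)) * (u ⬝ᵥ f g * v ⬝ᵥ f g) +
      γ * (u ⬝ᵥ f a * v ⬝ᵥ f b + u ⬝ᵥ f b * v ⬝ᵥ f a) := by
    intro u v
    have uk := congrFun (ex u) k
    have ul := congrFun (ex u) l
    have vk := congrFun (ex v) k
    have vl := congrFun (ex v) l
    simp only [Pi.add_apply, Pi.smul_apply, smul_eq_mul] at uk ul vk vl
    rw [xa u, xa v, xb u, xb v]
    unfold Bf at q12 q13 q23 q14 q24 q34 ⊢
    rw [uk, ul, vk, vl]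
    generalize u ⬝ᵥ f c = u1, u ⬝ᵥ f d = u2, u ⬝ᵥ f e = u3, u ⬝ᵥ f g = u4, v ⬝ᵥ f c = v1,
      v ⬝ᵥ f d = v2, v ⬝ᵥ f e = v3, v ⬝ᵥ f g = v4
    linear_combination (u1 * v2 + u2 * v1) * q12 + (u1 * v3 + u3 * v1) * q13 +
      (u2 * v3 + u3 * v2) * q23 + (u1 * v4 + u4 * v1) * q14 + (u2 * v4 + u4 * v2) * q24 +
      (u3 * v4 + u4 * v3) * q34
  have hγ : γ = 0 := by
    have hcc : Sᶜ.card + 1 = Fintype.card κ := by
      have := card_add_card_compl S
      omega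
    obtain ⟨u, hu0, hu⟩ := exists_normal f S (by omega)
    obtain ⟨v, hv0, hv⟩ := exists_normal f Sᶜ (by omega)
    have z : ∀ i, u ⬝ᵥ f i * v ⬝ᵥ f i = 0 := fun i => by
      by_cases hi : i ∈ S
      · rw [hu i hi, zero_mul]
      · rw [hv i (mem_compl.2 hi), mul_zero]
    have h1 := main u v
    rw [V4 u v hu fun i hi => hv i (mem_compl.2 hi), z, z, z, z, z, z, hu a ha] at h1
    have h2 := nz hS hc (by omega) hu0 hu hb
    have h3 := nz hS hc hcc hv0 hv (j := a) (by simpa using ha)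
    simpa [h2, h3] using h1
  subst hγ
  generalize Bf k l w1 w1 - _ = δ1, Bf k l w2 w2 - _ = δ2, Bf k l w3 w3 - _ = δ3,
    Bf k l w4 w4 - _ = δ4 at main
  refine ⟨(Pi.single a α : ι → ℝ) + (Pi.single b β : ι → ℝ) + (Pi.single c δ1 : ι → ℝ) +
    (Pi.single d δ2 : ι → ℝ) + (Pi.single e δ3 : ι → ℝ) + (Pi.single g δ4 : ι → ℝ),
    fun u v => ?_⟩
  rw [main u v]
  simp only [Pi.add_apply, add_mul, sum_add_distrib, Pi.single_apply, ite_mul, zero_mul,
    sum_ite_eq', mem_univ, if_true, add_zero]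

/-- two diagonal forms cannot share a coordinate -/
theorem not_null_adj (hS : Sq f) (hc : Fintype.card ι + 2 = 2 * Fintype.card κ)
    (h4 : Fintype.card κ = 4) {k l m : κ} (kl : k ≠ l) (km : k ≠ m) (lm : l ≠ m)
    (h1 : Null f k l) (h2 : Null f k m) : False := by
  classical
  obtain ⟨c1, h1⟩ := h1
  obtain ⟨c2, h2⟩ := h2
  obtain ⟨i₀⟩ : Nonempty ι := Fintype.card_pos_iff.1 (by omega)
  obtain ⟨α, β, hαβ, h0⟩ : ∃ α β : ℝ, ¬ (α = 0 ∧ β = 0) ∧ α * c1 i₀ + β * c2 i₀ = 0 := by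
    by_cases h : c1 i₀ = 0
    · exact ⟨1, 0, by simp, by simp [h]⟩
    · exact ⟨c2 i₀, -c1 i₀, by simp [h], by ring⟩
  set ν : ι → ℝ := fun i => α * c1 i + β * c2 i with hν
  have hB : ∀ u v : κ → ℝ, u k * (α * v l + β * v m) + (α * u l + β * u m) * v k =
      ∑ i, ν i * (u ⬝ᵥ f i * v ⬝ᵥ f i) := by
    intro u v
    have a1 := h1 u v
    have a2 := h2 u v
    simp only [hν, add_mul, sum_add_distrib, mul_assoc, ← mul_sum]
    rw [← a1, ← a2]
    unfold Bf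
    ring
  set I : Finset ι := univ.filter fun i => ν i ≠ 0 with hI
  have hI2 : I.card ≤ 2 := by
    by_contra hlt
    obtain ⟨J, hJ, hJ3⟩ := exists_subset_card_eq (s := I) (n := 3) (by omega)
    have i0J : i₀ ∉ J := fun h => (mem_filter.1 (hJ h)).2 h0
    obtain ⟨a, -, ha⟩ := exists_mem_notMem_of_card_lt_card (s := insert i₀ J) (t := univ)
      (by rw [card_insert_of_notMem i0J, card_univ]; omega)
    rw [mem_insert, not_or] at ha
    obtain ⟨z, hz0, hz⟩ := exists_orth ({Pi.single k 1, α • Pi.single l 1 + β • Pi.single m 1,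
      f a} : Finset (κ → ℝ)) (card_le_three.trans_lt (by omega))
    have z1 : z k = 0 := by simpa using hz (Pi.single k 1) (by simp)
    have z2 : α * z l + β * z m = 0 := by
      have := hz (α • Pi.single l 1 + β • Pi.single m 1) (by simp)
      rw [dotProduct_add, dotProduct_smul, dotProduct_smul] at this
      simpa using this
    have z3 : z ⬝ᵥ f a = 0 := hz _ (by simp)
    refine hz0 (spark hS hc (S := insert a J) (by rw [card_insert_of_notMem ha.2]; omega) ?_)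
    intro i hi
    rcases mem_insert.1 hi with rfl | hi
    · exact z3
    have ia : i ≠ a := fun h => ha.2 (h ▸ hi)
    have i0 : i ≠ i₀ := fun h => i0J (h ▸ hi)
    have hR : (({i, a, i₀} : Finset ι)ᶜ).card + 1 = Fintype.card κ := by
      rw [card_compl, card_eq_three.2 ⟨i, a, i₀, ia, i0, ha.1, rfl⟩]
      omega
    obtain ⟨v, hv0, hv⟩ := exists_normal f ({i, a, i₀} : Finset ι)ᶜ (by omega)
    have h3 := hB z v
    rw [z1, z2, zero_mul, zero_mul, add_zero, Fintype.sum_eq_single i] at h3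
    · have h5 := nz hS hc hR hv0 hv (j := i) (by simp)
      simpa [(mem_filter.1 (hJ hi)).2, h5] using h3
    · intro x hx
      by_cases xa : x = a
      · rw [xa, z3, zero_mul, mul_zero]
      by_cases x0 : x = i₀
      · rw [x0, show ν i₀ = 0 from h0, zero_mul]
      · rw [hv x (by simp [hx, xa, x0]), mul_zero, mul_zero]
  obtain ⟨T, hIT, -, hT⟩ := exists_subsuperset_card_eq (subset_univ I) hI2
    (by rw [card_univ]; omega)
  have hk : ∀ u : κ → ℝ, (∀ i ∈ T, u ⬝ᵥ f i = 0) → u k = 0 := by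
    intro u hu
    have h3 : ∀ v : κ → ℝ, u k * (α * v l + β * v m) + (α * u l + β * u m) * v k = 0 := by
      intro v
      rw [hB]
      refine sum_eq_zero fun i _ => ?_
      by_cases hi : ν i = 0
      · rw [hi, zero_mul]
      · rw [hu i (hIT (mem_filter.2 ⟨mem_univ _, hi⟩)), zero_mul, mul_zero]
    have a1 := h3 (Pi.single l 1)
    have a2 := h3 (Pi.single m 1)
    by_contra hne
    simp [kl, km, lm, lm.symm, hne] at a1 a2
    exact hαβ ⟨a1, a2⟩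
  obtain ⟨j₀, hj₀, j₁, hj₁, hne⟩ := one_lt_card.1 (show 1 < Tᶜ.card by rw [card_compl]; omega)
  rw [mem_compl] at hj₀ hj₁
  obtain ⟨u, hu0, hu⟩ := exists_normal f (insert j₀ T) (by rw [card_insert_of_notMem hj₀]; omega)
  obtain ⟨w, hw0, hw⟩ := exists_normal f (insert j₁ T) (by rw [card_insert_of_notMem hj₁]; omega)
  exact no_common_zero hS hc (by omega) hj₀ hj₁ hne hu0 hu hw0 hw
    (hk u fun i hi => hu i (mem_insert_of_mem hi)) (hk w fun i hi => hw i (mem_insert_of_mem hi))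

theorem van_of (hS : Sq f) (hc : Fintype.card ι + 2 = 2 * Fintype.card κ) {S : Finset ι}
    (h : S.card + 1 = Fintype.card κ) (h2 : 2 ≤ Fintype.card κ) {u v : κ → ℝ} (hu0 : u ≠ 0)
    (hu : ∀ i ∈ S, u ⬝ᵥ f i = 0) (hv0 : v ≠ 0) (hv : ∀ i ∈ Sᶜ, v ⬝ᵥ f i = 0) {k l : κ}
    (hB : Bf k l u v = 0) : Van f k l S := by
  have hcc : Sᶜ.card + 1 = Fintype.card κ := by
    have := card_add_card_compl S
    omega
  have par : ∀ {R : Finset ι}, R.card + 1 = Fintype.card κ → ∀ {w : κ → ℝ}, w ≠ 0 →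
      (∀ i ∈ R, w ⬝ᵥ f i = 0) → ∀ y : κ → ℝ, (∀ i ∈ R, y ⬝ᵥ f i = 0) → ∃ t : ℝ, y = t • w := by
    intro R hR w hw0 hw y hy
    obtain ⟨j, -, hj⟩ := exists_mem_notMem_of_card_lt_card (s := R) (t := univ)
      (by rw [card_univ]; omega)
    have hwj := nz hS hc hR hw0 hw hj
    refine ⟨y ⬝ᵥ f j / w ⬝ᵥ f j, sub_eq_zero.1 (spark hS hc (S := insert j R)
      (by rw [card_insert_of_notMem hj]; omega) fun i hi => ?_)⟩
    rw [sub_dotProduct, smul_dotProduct, smul_eq_mul]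
    rcases mem_insert.1 hi with rfl | hi
    · rw [div_mul_cancel₀ _ hwj, sub_self]
    · rw [hy i hi, hw i hi, mul_zero, sub_self]
  intro u' v' hu' hv'
  obtain ⟨s, rfl⟩ := par h hu0 hu u' hu'
  obtain ⟨t, rfl⟩ := par hcc hv0 hv v' fun i hi => hv' i (mem_compl.1 hi)
  simp only [Bf, Pi.smul_apply, smul_eq_mul] at hB ⊢
  linear_combination s * t * hB

/-- along a path through all coordinates the form vanishes somewhere -/
theorem van_path (hS : Sq f) (hc : Fintype.card ι + 2 = 2 * Fintype.card κ) {S : Finset ι}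
    (h : S.card + 1 = Fintype.card κ) (h2 : 2 ≤ Fintype.card κ) {a b c d : κ}
    (hall : ∀ x, x = a ∨ x = b ∨ x = c ∨ x = d) :
    Van f a b S ∨ Van f b c S ∨ Van f c d S := by
  have hcc : Sᶜ.card + 1 = Fintype.card κ := by
    have := card_add_card_compl S
    omega
  obtain ⟨u, hu0, hu⟩ := exists_normal f S (by omega)
  obtain ⟨v, hv0, hv⟩ := exists_normal f Sᶜ (by omega)
  by_contra hno
  simp only [not_or] at hno
  have key : ∀ k l, ¬ Van f k l S → u k * v l = u l * v k ∧ u l ≠ 0 ∧ u k ≠ 0 := by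
    intro k l hV
    have h1 : u k * v l + u l * v k ≠ 0 := fun h0 => hV (van_of hS hc h h2 hu0 hu hv0 hv h0)
    have h3 := hS S u v hu (fun i hi => hv i (mem_compl.2 hi)) k l
    have h5 : u k * v l = u l * v k := by
      refine sub_eq_zero.1 ((mul_eq_zero.1 ?_).resolve_left h1)
      linear_combination h3
    refine ⟨h5, fun h0 => h1 ?_, fun h0 => h1 ?_⟩
    · rw [h5, h0]; ring
    · rw [← h5, h0]; ring
  obtain ⟨e1, ub, -⟩ := key a b hno.1
  obtain ⟨e2, uc, -⟩ := key b c hno.2.1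
  obtain ⟨e3, -, -⟩ := key c d hno.2.2
  have h6 : u b • v = v b • u := by
    funext x
    simp only [Pi.smul_apply, smul_eq_mul]
    rcases hall x with rfl | rfl | rfl | rfl
    · linarith
    · ring
    · linarith
    · refine mul_left_cancel₀ uc ?_
      linear_combination u b * e3 + u x * e2
  obtain ⟨i, hi⟩ := card_pos.1 (show 0 < S.card by omega)
  have h7 := congrArg (· ⬝ᵥ f i) h6
  simp only [smul_dotProduct, hu i hi, smul_eq_mul, mul_zero, mul_eq_zero] at h7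
  exact nz hS hc hcc hv0 hv (j := i) (by simpa using hi) (h7.resolve_left ub)

/-- the ten balanced partitions of six indices -/
def tab6 : Fin 10 → Finset (Fin 6) :=
  ![{0, 1, 2}, {0, 1, 3}, {0, 1, 4}, {0, 1, 5}, {0, 2, 3}, {0, 2, 4}, {0, 2, 5}, {0, 3, 4},
    {0, 3, 5}, {0, 4, 5}]

/-- triples of partitions through a common pair -/
def trip6 : List (Fin 10 × Fin 10 × Fin 10 × Fin 6 × Fin 6 × Fin 6 × Fin 6 × Fin 6 × Fin 6) :=
  [(1, 2, 3, 0, 1, 3, 4, 5, 2), (4, 5, 6, 0, 2, 3, 4, 5, 1), (9, 8, 7, 1, 2, 3, 4, 5, 0),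
    (6, 3, 0, 3, 4, 1, 2, 5, 0), (1, 4, 8, 0, 3, 1, 2, 5, 4), (2, 5, 9, 0, 4, 1, 2, 5, 3),
    (3, 7, 4, 1, 5, 0, 2, 4, 3), (8, 2, 0, 3, 5, 0, 2, 4, 1), (1, 9, 6, 1, 3, 0, 2, 4, 5),
    (5, 8, 3, 2, 4, 0, 1, 3, 5), (6, 7, 2, 2, 5, 0, 1, 3, 4), (9, 4, 0, 4, 5, 0, 1, 3, 2),
    (0, 1, 3, 0, 1, 2, 3, 5, 4), (0, 1, 2, 0, 1, 2, 3, 4, 5), (5, 7, 9, 0, 4, 2, 3, 5, 1),
    (5, 8, 1, 2, 4, 0, 1, 5, 3), (7, 5, 4, 1, 5, 2, 3, 4, 0), (6, 7, 1, 2, 5, 0, 1, 4, 3),
    (6, 8, 9, 0, 5, 2, 3, 4, 1), (4, 3, 2, 2, 3, 0, 4, 5, 1), (0, 2, 3, 0, 1, 2, 4, 5, 3),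
    (0, 8, 7, 1, 2, 0, 4, 5, 3), (9, 4, 1, 4, 5, 0, 1, 2, 3)]

theorem trip6_cover : ∀ Z : Finset (Fin 10), 5 ≤ Z.card →
    ∃ t ∈ trip6, t.1 ∈ Z ∧ t.2.1 ∈ Z ∧ t.2.2.1 ∈ Z := by
  decide +kernel

/-- the data of an entry are consistent -/
def TripOk (s1 s2 s3 : Fin 10) (a b c d e g : Fin 6) : Prop :=
  [a, b, c, d, e, g].Nodup ∧ (∀ x, x ∈ [a, b, c, d, e, g]) ∧
    (tab6 s1 = {a, b, c} ∨ (tab6 s1)ᶜ = {a, b, c}) ∧
    (tab6 s2 = {a, b, d} ∨ (tab6 s2)ᶜ = {a, b, d}) ∧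
    (tab6 s3 = {a, b, e} ∨ (tab6 s3)ᶜ = {a, b, e}) ∧
    (univ.filter fun s => (a ∈ tab6 s ↔ b ∈ tab6 s)).card < 5

theorem trip6_ok : ∀ t ∈ trip6, TripOk t.1 t.2.1 t.2.2.1 t.2.2.2.1 t.2.2.2.2.1 t.2.2.2.2.2.1
    t.2.2.2.2.2.2.1 t.2.2.2.2.2.2.2.1 t.2.2.2.2.2.2.2.2 := by
  unfold TripOk
  decide +kernel

theorem tab6_card : ∀ s, (tab6 s).card = 3 := by decide

open scoped Classical in
theorem null_of_five {f : Fin 6 → κ → ℝ} (hS : Sq f) (h4 : Fintype.card κ = 4) {k l : κ}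
    (h5 : 5 ≤ (univ.filter fun s => Van f k l (tab6 s)).card) : Null f k l := by
  have hc : Fintype.card (Fin 6) + 2 = 2 * Fintype.card κ := by rw [h4]; simp
  obtain ⟨⟨s1, s2, s3, a, b, c, d, e, g⟩, ht, m1, m2, m3⟩ := trip6_cover _ h5
  obtain ⟨hn, hall, t1, t2, t3, hlt⟩ := trip6_ok _ ht
  simp only [mem_filter, mem_univ, true_and] at m1 m2 m3 hn hall t1 t2 t3 hlt
  have cv : ∀ {s : Fin 10} {R : Finset (Fin 6)}, Van f k l (tab6 s) →
      (tab6 s = R ∨ (tab6 s)ᶜ = R) → Van f k l R := by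
    rintro s R hV (rfl | rfl)
    · exact hV
    · exact hV.compl
  obtain ⟨s, hs, hs'⟩ := exists_mem_notMem_of_card_lt_card (hlt.trans_le h5)
  simp only [mem_filter, mem_univ, true_and] at hs hs'
  by_cases ha : a ∈ tab6 s
  · exact null_of_van hS hc h4 hn hall (cv m1 t1) (cv m2 t2) (cv m3 t3) (tab6_card s) ha
      (by tauto) hs
  · exact null_of_van hS hc h4 hn hall (cv m1 t1) (cv m2 t2) (cv m3 t3) (S := (tab6 s)ᶜ)
      (by rw [card_compl, tab6_card]; rfl) (mem_compl.2 ha) (by rw [mem_compl]; tauto) hs.compl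

theorem null_cycle {f : Fin 6 → κ → ℝ} (hS : Sq f) (h4 : Fintype.card κ = 4) {a b c d : κ}
    (hall : ∀ x, x = a ∨ x = b ∨ x = c ∨ x = d) :
    Null f a b ∨ Null f b c ∨ Null f c d ∨ Null f d a := by
  classical
  have hc : Fintype.card (Fin 6) + 2 = 2 * Fintype.card κ := by rw [h4]; simp
  by_contra hno
  simp only [not_or] at hno
  have c1 := mt (null_of_five hS h4) hno.1
  have c2 := mt (null_of_five hS h4) hno.2.1
  have c3 := mt (null_of_five hS h4) hno.2.2.1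
  have c4 := mt (null_of_five hS h4) hno.2.2.2
  simp only [card_filter] at c1 c2 c3 c4
  have h2 : ∀ s, 2 ≤ (if Van f a b (tab6 s) then 1 else 0) + (if Van f b c (tab6 s) then 1 else 0)
      + (if Van f c d (tab6 s) then 1 else 0) + (if Van f d a (tab6 s) then 1 else 0) := by
    intro s
    have hs : (tab6 s).card + 1 = Fintype.card κ := by rw [tab6_card, h4]
    have p1 := van_path hS hc hs (by omega) hall
    have p2 := van_path hS hc hs (by omega) (a := b) (b := c) (c := d) (d := a)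
      (fun x => by have := hall x; tauto)
    have p3 := van_path hS hc hs (by omega) (a := c) (b := d) (c := a) (d := b)
      (fun x => by have := hall x; tauto)
    have p4 := van_path hS hc hs (by omega) (a := d) (b := a) (c := b) (d := c)
      (fun x => by have := hall x; tauto)
    split_ifs <;> first | omega | tauto
  have h3 := sum_le_sum fun s (_ : s ∈ (univ : Finset (Fin 10))) => h2 s
  simp only [sum_add_distrib, sum_const, card_univ, Fintype.card_fin, smul_eq_mul] at h3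
  omega

omit [Fintype ι] [DecidableEq ι] [DecidableEq κ] in
theorem Null.symm [Fintype ι] {k l : κ} (h : Null f k l) : Null f l k := by
  obtain ⟨c, h⟩ := h
  exact ⟨c, fun u v => by rw [← h u v]; unfold Bf; ring⟩

theorem not_sq_four {f : Fin 6 → Fin 4 → ℝ} : ¬ Sq f := by
  intro hS
  have adj : ∀ {k l m : Fin 4}, k ≠ l → k ≠ m → l ≠ m → Null f k l → Null f k m → False :=
    fun h1 h2 h3 => not_null_adj hS (by simp) (by simp) h1 h2 h3
  have C1 := null_cycle hS (by simp) (a := 0) (b := 1) (c := 2) (d := 3) (by decide)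
  have C2 := null_cycle hS (by simp) (a := 0) (b := 1) (c := 3) (d := 2) (by decide)
  have C3 := null_cycle hS (by simp) (a := 0) (b := 2) (c := 1) (d := 3) (by decide)
  rcases C1 with h | h | h | h
  · rcases C3 with g | g | g | g
    · exact adj (by decide) (by decide) (by decide) h g
    · exact adj (by decide) (by decide) (by decide) h.symm g.symm
    · exact adj (by decide) (by decide) (by decide) h.symm g
    · exact adj (by decide) (by decide) (by decide) h g.symm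
  · rcases C2 with g | g | g | g
    · exact adj (by decide) (by decide) (by decide) h g.symm
    · exact adj (by decide) (by decide) (by decide) h g
    · exact adj (by decide) (by decide) (by decide) h.symm g.symm
    · exact adj (by decide) (by decide) (by decide) h.symm g
  · rcases C3 with g | g | g | g
    · exact adj (by decide) (by decide) (by decide) h g.symm
    · exact adj (by decide) (by decide) (by decide) h g
    · exact adj (by decide) (by decide) (by decide) h.symm g.symm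
    · exact adj (by decide) (by decide) (by decide) h.symm g
  · rcases C2 with g | g | g | g
    · exact adj (by decide) (by decide) (by decide) h.symm g
    · exact adj (by decide) (by decide) (by decide) h g.symm
    · exact adj (by decide) (by decide) (by decide) h g
    · exact adj (by decide) (by decide) (by decide) h.symm g.symm

end Pool.Agent.MP_e57dcf_an

end

-- part MP_e57dcf_an.H70.Three
section

/-! Families with proportional squares of normals in dimensions two and three. -/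

set_option autoImplicit false
open Finset Matrix

namespace Pool.Agent.MP_e57dcf_an

variable {ι κ : Type} [Fintype ι] [DecidableEq ι] [Fintype κ] [DecidableEq κ] {f : ι → κ → ℝ}

theorem spark3 (hS : Sq f) (hc : Fintype.card ι + 2 = 2 * Fintype.card κ)
    (h3 : Fintype.card κ = 3) {a b c : ι} (ab : a ≠ b) (ac : a ≠ c) (bc : b ≠ c)
    {y : κ → ℝ} (ya : y ⬝ᵥ f a = 0) (yb : y ⬝ᵥ f b = 0) (yc : y ⬝ᵥ f c = 0) : y = 0 :=
  spark hS hc (S := {a, b, c}) (by rw [card_eq_three.2 ⟨a, b, c, ab, ac, bc, rfl⟩]; omega)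
    (by simp [ya, yb, yc])

omit [Fintype ι] [DecidableEq κ] in
theorem normal2 (f : ι → κ → ℝ) (h3 : Fintype.card κ = 3) (a b : ι) :
    ∃ y : κ → ℝ, y ≠ 0 ∧ y ⬝ᵥ f a = 0 ∧ y ⬝ᵥ f b = 0 := by
  obtain ⟨y, y0, hy⟩ := exists_normal f {a, b} (card_le_two.trans_lt (by omega))
  exact ⟨y, y0, hy a (by simp), hy b (by simp)⟩

theorem dot3 {k l m : κ} (kl : k ≠ l) (km : k ≠ m) (lm : l ≠ m)
    (hκ : ∀ x, x = k ∨ x = l ∨ x = m) (y z : κ → ℝ) :
    y ⬝ᵥ z = y k * z k + y l * z l + y m * z m := by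
  have h : (univ : Finset κ) = {k, l, m} := by
    ext x
    simpa using hκ x
  rw [dotProduct, h, sum_insert (by simp [kl, km]), sum_pair lm, add_assoc]

/-- some normal of two vectors of the family vanishes at the coordinate `k` -/
def Zr (f : ι → κ → ℝ) (k : κ) (a b : ι) : Prop :=
  ∃ y : κ → ℝ, y ≠ 0 ∧ y ⬝ᵥ f a = 0 ∧ y ⬝ᵥ f b = 0 ∧ y k = 0

section Shape

variable (hS : Sq f) (hc : Fintype.card ι + 2 = 2 * Fintype.card κ) (h3 : Fintype.card κ = 3)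
  {k l m : κ} (kl : k ≠ l) (km : k ≠ m) (lm : l ≠ m) (hκ : ∀ x, x = k ∨ x = l ∨ x = m)
  (V : ∀ a b : ι, a ≠ b → Van f k l {a, b} ∧ Van f k m {a, b})

include hS h3 in
omit [Fintype ι] [DecidableEq κ] in
theorem Zr.compl {a b c d : ι} (hall : ∀ x, x = a ∨ x = b ∨ x = c ∨ x = d) (h : Zr f k a b) :
    Zr f k c d := by
  obtain ⟨u, u0, ua, ub, uk⟩ := h
  obtain ⟨v, v0, vc, vd⟩ := normal2 f h3 c d
  refine ⟨v, v0, vc, vd, ?_⟩
  obtain ⟨j, hj⟩ := Function.ne_iff.1 u0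
  have hj' : u j ≠ 0 := hj
  have h1 := hS {a, b} u v (by simp [ua, ub]) (fun i hi => by
    rcases hall i with rfl | rfl | rfl | rfl <;> simp [*] at hi ⊢) k j
  rw [uk] at h1
  have h2 : u j ^ 2 * v k ^ 2 = 0 := by rw [← h1]; ring
  simpa [hj'] using h2

include h3 kl km lm hκ V in
omit [Fintype ι] in
theorem refl_dot {a b c d : ι} (ab : a ≠ b) (hall : ∀ x, x = a ∨ x = b ∨ x = c ∨ x = d)
    (hZ : ¬ Zr f k a b) {u : κ → ℝ} (u0 : u ≠ 0) (ua : u ⬝ᵥ f a = 0) (ub : u ⬝ᵥ f b = 0) :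
    u k * f d k - u l * f d l - u m * f d m = 0 := by
  obtain ⟨v, v0, vc, vd⟩ := normal2 f h3 c d
  have uk : u k ≠ 0 := fun h => hZ ⟨u, u0, ua, ub, h⟩
  have hv : ∀ i, i ∉ ({a, b} : Finset ι) → v ⬝ᵥ f i = 0 := fun i hi => by
    rcases hall i with rfl | rfl | rfl | rfl <;> simp [*] at hi ⊢
  have h1 := (V a b ab).1 u v (by simp [ua, ub]) hv
  have h2 := (V a b ab).2 u v (by simp [ua, ub]) hv
  unfold Bf at h1 h2
  have vk : v k ≠ 0 := by
    intro h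
    refine v0 (funext fun x => ?_)
    rcases hκ x with rfl | rfl | rfl
    · exact h
    · simpa [h, uk] using h1
    · simpa [h, uk] using h2
  rw [dot3 kl km lm hκ] at vd
  refine mul_left_cancel₀ vk ?_
  linear_combination u k * vd - f d l * h1 - f d m * h2

include hS hc h3 kl km lm hκ V in
theorem refl_swap {a b c d : ι} (ab : a ≠ b) (ac : a ≠ c) (bc : b ≠ c)
    (hall : ∀ x, x = a ∨ x = b ∨ x = c ∨ x = d) (Z1 : ¬ Zr f k a b) (Z2 : ¬ Zr f k a c) :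
    ∃ s : ℝ, f d k = s * f a k ∧ f d l = -(s * f a l) ∧ f d m = -(s * f a m) := by
  obtain ⟨u1, u10, u1a, u1b⟩ := normal2 f h3 a b
  obtain ⟨u2, u20, u2a, u2c⟩ := normal2 f h3 a c
  obtain ⟨u3, u30, u3b, u3c⟩ := normal2 f h3 b c
  have r1 := refl_dot h3 kl km lm hκ V ab hall Z1 u10 u1a u1b
  have r2 := refl_dot h3 kl km lm hκ V (b := c) (c := b) (d := d) ac
    (fun x => by have := hall x; tauto) Z2 u20 u2a u2c
  have n1 : u1 ⬝ᵥ f c ≠ 0 := fun h => u10 (spark3 hS hc h3 ab ac bc u1a u1b h)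
  have n2 : u2 ⬝ᵥ f b ≠ 0 := fun h => u20 (spark3 hS hc h3 ab ac bc u2a h u2c)
  have n3 : u3 ⬝ᵥ f a ≠ 0 := fun h => u30 (spark3 hS hc h3 ab ac bc h u3b u3c)
  obtain ⟨s, hs⟩ : ∃ s, s * u3 ⬝ᵥ f a = u3 k * f d k - u3 l * f d l - u3 m * f d m :=
    ⟨_, div_mul_cancel₀ _ n3⟩
  set w : κ → ℝ := fun x => (if x = k then f d x else -f d x) - s * f a x with hw
  have wk : w k = f d k - s * f a k := by simp [hw]
  have wl : w l = -f d l - s * f a l := by simp [hw, kl.symm]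
  have wm : w m = -f d m - s * f a m := by simp [hw, km.symm]
  have w1 : w ⬝ᵥ u1 = 0 := by
    rw [dot3 kl km lm hκ] at u1a ⊢
    rw [wk, wl, wm]
    linear_combination r1 - s * u1a
  have w2 : w ⬝ᵥ u2 = 0 := by
    rw [dot3 kl km lm hκ] at u2a ⊢
    rw [wk, wl, wm]
    linear_combination r2 - s * u2a
  have w3 : w ⬝ᵥ u3 = 0 := by
    rw [dot3 kl km lm hκ] at hs ⊢
    rw [wk, wl, wm]
    linear_combination -hs
  have h1 := spark3 hS hc h3 ab ac bc (y := w - ((w ⬝ᵥ f c / u1 ⬝ᵥ f c) • u1 +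
    (w ⬝ᵥ f b / u2 ⬝ᵥ f b) • u2 + (w ⬝ᵥ f a / u3 ⬝ᵥ f a) • u3))
    (by simp [u1a, u2a, n3]) (by simp [u1b, u3b, n2]) (by simp [u2c, u3c, n1])
  have h2 : w ⬝ᵥ w = 0 := by
    have := congrArg (w ⬝ᵥ ·) h1
    simpa [dotProduct_sub, dotProduct_add, dotProduct_smul, w1, w2, w3] using this
  have h4 : w = 0 := dotProduct_self_eq_zero.1 h2
  rw [h4] at wk wl wm
  simp only [Pi.zero_apply] at wk wl wm
  exact ⟨s, by linarith, by linarith, by linarith⟩

include hS hc h3 kl km lm hκ V in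
theorem shape_of {a b c d : ι} (ab : a ≠ b) (ac : a ≠ c) (ad : a ≠ d) (bc : b ≠ c) (bd : b ≠ d)
    (cd : c ≠ d) (hall : ∀ x, x = a ∨ x = b ∨ x = c ∨ x = d) (Z1 : ¬ Zr f k a b)
    (Z2 : ¬ Zr f k a c) :
    ∃ (σ : Fin 4 ≃ ι) (τ : Fin 3 ≃ κ) (s : Fin 4 → ℝ) (α β t : ℝ), (∀ i, s i ≠ 0) ∧ α ≠ 0 ∧
      β ≠ 0 ∧ t ≠ 0 ∧ ∀ i j, f (σ i) (τ j) = s i *
        ![![1, α, β], ![1, -α, -β], ![1, t * α, -(t * β)], ![1, -(t * α), t * β]] i j := by
  obtain ⟨s, sk, sl, sm⟩ := refl_swap hS hc h3 kl km lm hκ V ab ac bc hall Z1 Z2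
  obtain ⟨r, rk, rl, rm⟩ := refl_swap hS hc h3 kl km lm hκ V (a := c) (b := d) (c := a) (d := b)
    cd ac.symm ad.symm (fun x => by have := hall x; tauto)
    (fun h => Z1 (h.compl hS h3 fun x => by have := hall x; tauto))
    (fun ⟨y, y0, y1, y2, y3⟩ => Z2 ⟨y, y0, y2, y1, y3⟩)
  have D := dot3 kl km lm hκ
  obtain ⟨z, z0, za, zb⟩ := normal2 f h3 a b
  have zd : z ⬝ᵥ f d ≠ 0 := fun h => z0 (spark3 hS hc h3 ab ad bd za zb h)
  obtain ⟨y, y0, yc, yd⟩ := normal2 f h3 c d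
  have yb : y ⬝ᵥ f b ≠ 0 := fun h => y0 (spark3 hS hc h3 bc bd cd h yc yd)
  rw [D] at za zd yc yb
  rw [sk, sl, sm] at zd
  rw [rk, rl, rm] at yb
  have s0 : s ≠ 0 := fun h => zd (by rw [h]; ring)
  have r0 : r ≠ 0 := fun h => yb (by rw [h]; ring)
  have ak : f a k ≠ 0 := fun h => zd (by rw [h] at za ⊢; linear_combination -s * za)
  have ck : f c k ≠ 0 := fun h => yb (by rw [h] at yc ⊢; linear_combination -r * yc)
  set u : κ → ℝ := fun x => if x = l then f a m else if x = m then -f a l else 0 with hu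
  set v : κ → ℝ := fun x => if x = l then f c m else if x = m then -f c l else 0 with hv
  have uk : u k = 0 := by simp [hu, kl, km]
  have ul : u l = f a m := by simp [hu]
  have um : u m = -f a l := by simp [hu, lm.symm]
  have vk : v k = 0 := by simp [hv, kl, km]
  have vl : v l = f c m := by simp [hv]
  have vm : v m = -f c l := by simp [hv, lm.symm]
  have ua : u ⬝ᵥ f a = 0 := by rw [D, uk, ul, um]; ring
  have ud : u ⬝ᵥ f d = 0 := by rw [D, uk, ul, um, sl, sm]; ring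
  have vc : v ⬝ᵥ f c = 0 := by rw [D, vk, vl, vm]; ring
  have vb : v ⬝ᵥ f b = 0 := by rw [D, vk, vl, vm, rl, rm]; ring
  have hne : f a m * f c l - f a l * f c m ≠ 0 := by
    intro h
    have h1 := spark3 hS hc h3 ac ad cd ua (by rw [D, uk, ul, um]; linear_combination h) ud
    rw [h1] at ul um
    simp only [Pi.zero_apply] at ul um
    have al : f a l = 0 := by linarith
    rw [al, ← ul] at za zd
    exact zd (by linear_combination s * za)
  have hsq := hS {a, d} u v (by simp [ua, ud]) (fun i hi => by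
    rcases hall i with rfl | rfl | rfl | rfl <;> simp [vb, vc] at hi ⊢) l m
  rw [ul, um, vl, vm] at hsq
  have hE : f a m * f c l + f a l * f c m = 0 := by
    refine (mul_eq_zero.1 ?_).resolve_left hne
    linear_combination hsq
  have al : f a l ≠ 0 := fun h => hne (by rw [h] at hE ⊢; linear_combination hE)
  have am : f a m ≠ 0 := fun h => hne (by rw [h] at hE ⊢; linear_combination -hE)
  have cl : f c l ≠ 0 := fun h => hne (by rw [h] at hE ⊢; linear_combination -hE)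
  have hσ : Function.Bijective (![a, d, c, b] : Fin 4 → ι) :=
    (Fintype.bijective_iff_surjective_and_card _).2 ⟨fun x => by
      rcases hall x with rfl | rfl | rfl | rfl
      exacts [⟨0, rfl⟩, ⟨3, rfl⟩, ⟨2, rfl⟩, ⟨1, rfl⟩], by rw [Fintype.card_fin]; omega⟩
  have hτ : Function.Bijective (![k, l, m] : Fin 3 → κ) :=
    (Fintype.bijective_iff_surjective_and_card _).2 ⟨fun x => by
      rcases hκ x with rfl | rfl | rfl
      exacts [⟨0, rfl⟩, ⟨1, rfl⟩, ⟨2, rfl⟩], by rw [Fintype.card_fin]; omega⟩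
  have cm : f c m = -(f a m * f c l / f a l) := by field_simp; linarith
  refine ⟨Equiv.ofBijective _ hσ, Equiv.ofBijective _ hτ, ![f a k, s * f a k, f c k, r * f c k],
    f a l / f a k, f a m / f a k, f c l * f a k / (f c k * f a l), fun i => ?_,
    div_ne_zero al ak, div_ne_zero am ak, div_ne_zero (mul_ne_zero cl ak) (mul_ne_zero ck al),
    fun i j => ?_⟩
  · fin_cases i <;> simp [ak, ck, s0, r0]
  · fin_cases i <;> fin_cases j <;> simp [sk, sl, sm, rk, rl, rm, cm] <;> field_simp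

include hS hc h3 kl km lm hκ V in
theorem shape_of_van :
    ∃ (σ : Fin 4 ≃ ι) (τ : Fin 3 ≃ κ) (s : Fin 4 → ℝ) (α β t : ℝ), (∀ i, s i ≠ 0) ∧ α ≠ 0 ∧
      β ≠ 0 ∧ t ≠ 0 ∧ ∀ i j, f (σ i) (τ j) = s i *
        ![![1, α, β], ![1, -α, -β], ![1, t * α, -(t * β)], ![1, -(t * α), t * β]] i j := by
  obtain ⟨e⟩ : Nonempty (Fin 4 ≃ ι) := Fintype.card_eq.1 (by rw [Fintype.card_fin]; omega)
  have ne : ∀ {i j : Fin 4}, i ≠ j → e i ≠ e j := fun h => e.injective.ne h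
  have hall : ∀ x, x = e 0 ∨ x = e 1 ∨ x = e 2 ∨ x = e 3 := by
    intro x
    obtain ⟨i, rfl⟩ := e.surjective x
    fin_cases i <;> simp
  have two : ∀ {i j : Fin 4}, 0 ≠ i → 0 ≠ j → i ≠ j → Zr f k (e 0) (e i) → Zr f k (e 0) (e j) →
      False := by
    rintro i j hi hj hij ⟨y, y0, y1, y2, y3⟩ ⟨z, z0, z1, z2, z3⟩
    exact no_common_zero hS hc (T := {e 0}) (by rw [card_singleton]; omega) (j₀ := e i)
      (j₁ := e j) (by simpa using hi.symm) (by simpa using hj.symm) (ne hij) y0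
      (by simp [y1, y2]) z0 (by simp [z1, z2]) y3 z3
  by_cases Z1 : Zr f k (e 0) (e 1)
  · exact shape_of hS hc h3 kl km lm hκ V (a := e 0) (b := e 2) (c := e 3) (d := e 1)
      (ne (by decide)) (ne (by decide)) (ne (by decide)) (ne (by decide)) (ne (by decide))
      (ne (by decide)) (fun x => by have := hall x; tauto)
      (two (by decide) (by decide) (by decide) Z1) (two (by decide) (by decide) (by decide) Z1)
  by_cases Z2 : Zr f k (e 0) (e 2)
  · exact shape_of hS hc h3 kl km lm hκ V (a := e 0) (b := e 1) (c := e 3) (d := e 2)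
      (ne (by decide)) (ne (by decide)) (ne (by decide)) (ne (by decide)) (ne (by decide))
      (ne (by decide)) (fun x => by have := hall x; tauto) Z1
      (two (by decide) (by decide) (by decide) Z2)
  · exact shape_of hS hc h3 kl km lm hκ V (ne (by decide)) (ne (by decide)) (ne (by decide))
      (ne (by decide)) (ne (by decide)) (ne (by decide)) hall Z1 Z2

end Shape

omit [Fintype ι] [DecidableEq ι] [DecidableEq κ] in
theorem Van.symm {k l : κ} {S : Finset ι} (h : Van f k l S) : Van f l k S := by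
  intro u v hu hv
  have := h u v hu hv
  unfold Bf at this ⊢
  linarith

theorem shape_three {f : Fin 4 → Fin 3 → ℝ} (hS : Sq f) :
    ∃ (σ : Fin 4 ≃ Fin 4) (τ : Fin 3 ≃ Fin 3) (s : Fin 4 → ℝ) (α β t : ℝ), (∀ i, s i ≠ 0) ∧ α ≠ 0 ∧
      β ≠ 0 ∧ t ≠ 0 ∧ ∀ i j, f (σ i) (τ j) = s i *
        ![![1, α, β], ![1, -α, -β], ![1, t * α, -(t * β)], ![1, -(t * α), t * β]] i j := by
  have hc : Fintype.card (Fin 4) + 2 = 2 * Fintype.card (Fin 3) := by simp
  have h3 : Fintype.card (Fin 3) = 3 := by simp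
  have c0 : ∀ a b c : Fin 4, a ≠ b → a ≠ c → b ≠ c → f a ⨯₃ f b ≠ 0 := by
    intro a b c ab ac bc h
    obtain ⟨z, z0, zb, zc⟩ := normal2 f h3 b c
    obtain ⟨y, y0, ya, yc⟩ := normal2 f h3 a c
    have za : z ⬝ᵥ f a ≠ 0 := fun h => z0 (spark3 hS hc h3 ab ac bc h zb zc)
    have h1 := cross_dot_cross (f a) (f b) z y
    rw [h, zero_dotProduct, dotProduct_comm _ z, dotProduct_comm _ z, dotProduct_comm _ y,
      dotProduct_comm _ y, zb] at h1
    refine y0 (spark3 hS hc h3 ab ac bc ya ?_ yc)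
    simpa [za] using h1
  have o1 : ∀ a b : Fin 4, (f a ⨯₃ f b) ⬝ᵥ f a = 0 := fun a b => by
    rw [dotProduct_comm, dot_self_cross]
  have o2 : ∀ a b : Fin 4, (f a ⨯₃ f b) ⬝ᵥ f b = 0 := fun a b => by
    rw [dotProduct_comm, dot_cross_self]
  have iff : ∀ (k l : Fin 3) (a b c d : Fin 4), a ≠ b → a ≠ c → b ≠ c → c ≠ d → a ≠ d →
      ({a, b} : Finset (Fin 4))ᶜ = {c, d} →
      (Van f k l {a, b} ↔ Bf k l (f a ⨯₃ f b) (f c ⨯₃ f d) = 0) := by
    intro k l a b c d ab ac bc cd ad hcd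
    refine ⟨fun h => h _ _ (by simp [o1, o2]) fun i hi => ?_, fun h => ?_⟩
    · rw [← mem_compl, hcd] at hi
      revert i
      simp [o1, o2]
    · exact van_of hS hc (by rw [card_pair ab, h3]) (by omega) (c0 a b c ab ac bc)
        (by simp [o1, o2]) (c0 c d a cd ac.symm ad.symm) (by rw [hcd]; simp [o1, o2]) h
  have rel : ∀ k l : Fin 3, (Van f k l {0, 1} → Van f k l {0, 2} → Van f k l {0, 3}) ∧
      (Van f k l {0, 1} → Van f k l {0, 3} → Van f k l {0, 2}) ∧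
      (Van f k l {0, 2} → Van f k l {0, 3} → Van f k l {0, 1}) := by
    intro k l
    rw [iff k l 0 1 2 3 (by decide) (by decide) (by decide) (by decide) (by decide) (by decide),
      iff k l 0 2 3 1 (by decide) (by decide) (by decide) (by decide) (by decide) (by decide),
      iff k l 0 3 1 2 (by decide) (by decide) (by decide) (by decide) (by decide) (by decide)]
    have h : Bf k l (f 0 ⨯₃ f 1) (f 2 ⨯₃ f 3) + Bf k l (f 0 ⨯₃ f 2) (f 3 ⨯₃ f 1) +
        Bf k l (f 0 ⨯₃ f 3) (f 1 ⨯₃ f 2) = 0 := by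
      fin_cases k <;> fin_cases l <;> simp [Bf, cross_apply] <;> ring
    exact ⟨fun _ _ => by linarith, fun _ _ => by linarith, fun _ _ => by linarith⟩
  have path : ∀ j : Fin 4, 0 ≠ j → (Van f 0 1 {0, j} ∨ Van f 1 2 {0, j}) ∧
      (Van f 0 1 {0, j} ∨ Van f 0 2 {0, j}) ∧ (Van f 0 2 {0, j} ∨ Van f 1 2 {0, j}) := by
    intro j hj
    have hs : ({0, j} : Finset (Fin 4)).card + 1 = Fintype.card (Fin 3) := by
      rw [card_pair hj, h3]
    have p1 := van_path hS hc hs (by omega) (a := 0) (b := 1) (c := 2) (d := 1) (by decide)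
    have p2 := van_path hS hc hs (by omega) (a := 1) (b := 0) (c := 2) (d := 0) (by decide)
    have p3 := van_path hS hc hs (by omega) (a := 0) (b := 2) (c := 1) (d := 2) (by decide)
    refine ⟨?_, ?_, ?_⟩
    · rcases p1 with h | h | h
      exacts [Or.inl h, Or.inr h, Or.inr h.symm]
    · rcases p2 with h | h | h
      exacts [Or.inl h.symm, Or.inr h, Or.inr h.symm]
    · rcases p3 with h | h | h
      exacts [Or.inl h, Or.inr h.symm, Or.inr h]
  have full : ∀ k l : Fin 3, Van f k l {0, 1} ∧ Van f k l {0, 2} ∧ Van f k l {0, 3} →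
      ∀ a b : Fin 4, a ≠ b → Van f k l {a, b} := by
    rintro k l ⟨h1, h2, h4⟩ a b ab
    have h : ∀ a b : Fin 4, a ≠ b → ∃ j ∈ ({1, 2, 3} : Finset (Fin 4)),
        ({a, b} : Finset (Fin 4)) = {0, j} ∨ ({a, b} : Finset (Fin 4)) = {0, j}ᶜ := by decide
    obtain ⟨j, hj, h5⟩ := h a b ab
    have h6 : Van f k l {0, j} := by
      simp only [mem_insert, mem_singleton] at hj
      rcases hj with rfl | rfl | rfl <;> assumption
    rcases h5 with h5 | h5 <;> rw [h5]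
    exacts [h6, h6.compl]
  have key : ((Van f 0 1 {0, 1} ∧ Van f 0 1 {0, 2} ∧ Van f 0 1 {0, 3}) ∧
        (Van f 0 2 {0, 1} ∧ Van f 0 2 {0, 2} ∧ Van f 0 2 {0, 3})) ∨
      ((Van f 0 1 {0, 1} ∧ Van f 0 1 {0, 2} ∧ Van f 0 1 {0, 3}) ∧
        (Van f 1 2 {0, 1} ∧ Van f 1 2 {0, 2} ∧ Van f 1 2 {0, 3})) ∨
      ((Van f 0 2 {0, 1} ∧ Van f 0 2 {0, 2} ∧ Van f 0 2 {0, 3}) ∧
        (Van f 1 2 {0, 1} ∧ Van f 1 2 {0, 2} ∧ Van f 1 2 {0, 3})) := by
    have q1 := path 1 (by decide)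
    have q2 := path 2 (by decide)
    have q3 := path 3 (by decide)
    have r1 := rel 0 1
    have r2 := rel 0 2
    have r3 := rel 1 2
    generalize Van f 0 1 {0, 1} = A1, Van f 0 1 {0, 2} = A2, Van f 0 1 {0, 3} = A3,
      Van f 0 2 {0, 1} = B1, Van f 0 2 {0, 2} = B2, Van f 0 2 {0, 3} = B3,
      Van f 1 2 {0, 1} = C1, Van f 1 2 {0, 2} = C2, Van f 1 2 {0, 3} = C3 at *
    clear path rel iff o1 o2 c0 full
    grind
  rcases key with ⟨h1, h2⟩ | ⟨h1, h2⟩ | ⟨h1, h2⟩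
  · exact shape_of_van hS hc h3 (k := 0) (l := 1) (m := 2) (by decide) (by decide) (by decide)
      (by decide) fun a b ab => ⟨full _ _ h1 a b ab, full _ _ h2 a b ab⟩
  · exact shape_of_van hS hc h3 (k := 1) (l := 0) (m := 2) (by decide) (by decide) (by decide)
      (by decide) fun a b ab => ⟨(full _ _ h1 a b ab).symm, full _ _ h2 a b ab⟩
  · exact shape_of_van hS hc h3 (k := 2) (l := 0) (m := 1) (by decide) (by decide) (by decide)
      (by decide) fun a b ab => ⟨(full _ _ h1 a b ab).symm, (full _ _ h2 a b ab).symm⟩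

theorem shape_two {f : Fin 2 → Fin 2 → ℝ} (hS : Sq f) :
    ∃ (s : Fin 2 → ℝ) (α : ℝ), (∀ i, s i ≠ 0) ∧ α ≠ 0 ∧
      ∀ i j, f i j = s i * ![![1, α], ![1, -α]] i j := by
  have hc : Fintype.card (Fin 2) + 2 = 2 * Fintype.card (Fin 2) := by simp
  have hne : f 0 1 * f 1 0 - f 0 0 * f 1 1 ≠ 0 := by
    intro h
    have h1 := spark hS hc (S := univ) (by simp) (u := ![f 0 1, -f 0 0]) (by
      simp [Fin.forall_fin_two, dotProduct, Fin.sum_univ_two]
      constructor <;> linarith)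
    have h2 := spark hS hc (S := univ) (by simp) (u := ![f 1 1, -f 1 0]) (by
      simp [Fin.forall_fin_two, dotProduct, Fin.sum_univ_two]
      constructor <;> linarith)
    have a1 : f 0 1 = 0 := congrFun h1 0
    have a2 : -f 0 0 = 0 := congrFun h1 1
    have a3 : f 1 1 = 0 := congrFun h2 0
    have a4 : -f 1 0 = 0 := congrFun h2 1
    have h3 := spark hS hc (S := univ) (by simp) (u := ![1, 0]) (by
      simp [Fin.forall_fin_two, dotProduct, Fin.sum_univ_two]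
      constructor <;> linarith)
    simpa using congrFun h3 0
  have hsq := hS {0} ![f 0 1, -f 0 0] ![f 1 1, -f 1 0]
    (by simp [dotProduct, Fin.sum_univ_two]; ring)
    (by simp [Fin.forall_fin_two, dotProduct, Fin.sum_univ_two]; ring) 0 1
  simp only [Matrix.cons_val_zero, Matrix.cons_val_one] at hsq
  have hE : f 0 1 * f 1 0 + f 0 0 * f 1 1 = 0 := by
    refine (mul_eq_zero.1 ?_).resolve_left hne
    linear_combination hsq
  have a0 : f 0 0 ≠ 0 := fun h => hne (by rw [h] at hE ⊢; linear_combination hE)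
  have a1 : f 0 1 ≠ 0 := fun h => hne (by rw [h] at hE ⊢; linear_combination -hE)
  have b0 : f 1 0 ≠ 0 := fun h => hne (by rw [h] at hE ⊢; linear_combination -hE)
  have b1 : f 1 1 = -(f 0 1 * f 1 0 / f 0 0) := by field_simp; linarith
  refine ⟨![f 0 0, f 1 0], f 0 1 / f 0 0, fun i => ?_, div_ne_zero a1 a0, fun i j => ?_⟩
  · fin_cases i <;> simp [a0, b0]
  · fin_cases i <;> fin_cases j <;> simp [b1] <;> field_simp

end Pool.Agent.MP_e57dcf_an

end

-- part MP_e57dcf_an.H70.Five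
section

/-! Eight vectors of five-dimensional space never have proportional squares of normals. -/

set_option autoImplicit false
open Finset Matrix

namespace Pool.Agent.MP_e57dcf_an

variable {ι κ : Type} [Fintype ι] [DecidableEq ι] [Fintype κ] [DecidableEq κ] {f : ι → κ → ℝ}

/-- dual vectors of one side of a balanced partition -/
theorem exists_dual (hS : Sq f) (hc : Fintype.card ι + 2 = 2 * Fintype.card κ) {S : Finset ι}
    (h : S.card + 1 = Fintype.card κ) {j : ι} (hj : j ∉ S) :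
    ∃ g : ι → κ → ℝ, ∀ i ∈ S, (∀ t ∈ S, t ≠ i → g i ⬝ᵥ f t = 0) ∧ g i ⬝ᵥ f i = 1 := by
  have hG : ∀ i, ∃ g : κ → ℝ, i ∈ S → (∀ t ∈ S, t ≠ i → g ⬝ᵥ f t = 0) ∧ g ⬝ᵥ f i = 1 := by
    intro i
    by_cases hi : i ∈ S
    · have hk := card_swap hi hj
      obtain ⟨g, hg0, hg⟩ := exists_normal f (insert j (S.erase i)) (by omega)
      have h1 : g ⬝ᵥ f i ≠ 0 := by
        refine nz hS hc (by omega) hg0 hg ?_
        rw [mem_insert, mem_erase]
        rintro (rfl | h1)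
        · exact hj hi
        · exact h1.1 rfl
      refine ⟨(g ⬝ᵥ f i)⁻¹ • g, fun _ => ⟨fun t ht hti => ?_, ?_⟩⟩
      · rw [smul_dotProduct, hg t (mem_insert_of_mem (mem_erase.2 ⟨hti, ht⟩)), smul_zero]
      · rw [smul_dotProduct, smul_eq_mul, inv_mul_cancel₀ h1]
    · exact ⟨0, fun h => absurd h hi⟩
  choose g hg using hG
  exact ⟨g, hg⟩

/-- expansion of a vector in the dual vectors and the normal -/
theorem expand (hS : Sq f) (hc : Fintype.card ι + 2 = 2 * Fintype.card κ) {S : Finset ι}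
    (h : S.card + 1 = Fintype.card κ) {u : κ → ℝ} (hu0 : u ≠ 0) (hu : ∀ i ∈ S, u ⬝ᵥ f i = 0)
    {g : ι → κ → ℝ} (hg : ∀ i ∈ S, (∀ t ∈ S, t ≠ i → g i ⬝ᵥ f t = 0) ∧ g i ⬝ᵥ f i = 1)
    {j₀ : ι} (hj₀ : j₀ ∉ S) (w : κ → ℝ) : ∃ w₀ : ℝ, ∀ j, j ∉ S →
      ∑ i ∈ S, w ⬝ᵥ f i * (g i ⬝ᵥ f j / u ⬝ᵥ f j) = w ⬝ᵥ f j / u ⬝ᵥ f j - w₀ := by
  set y : κ → ℝ := w - ∑ i ∈ S, (w ⬝ᵥ f i) • g i with hy
  have hy0 : ∀ i ∈ S, y ⬝ᵥ f i = 0 := by
    intro i hi
    rw [hy, sub_dotProduct, sum_dotProduct, sum_eq_single_of_mem i hi]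
    · rw [smul_dotProduct, (hg i hi).2, smul_eq_mul, mul_one, sub_self]
    · intro b hb hbi
      rw [smul_dotProduct, (hg b hb).1 i hi hbi.symm, smul_zero]
  have huj := nz hS hc h hu0 hu hj₀
  have h1 : y - (y ⬝ᵥ f j₀ / u ⬝ᵥ f j₀) • u = 0 := by
    refine spark hS hc (S := insert j₀ S) (by rw [card_insert_of_notMem hj₀]; omega) ?_
    intro i hi
    rw [sub_dotProduct, smul_dotProduct, smul_eq_mul]
    rcases mem_insert.1 hi with rfl | hi
    · rw [div_mul_cancel₀ _ huj, sub_self]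
    · rw [hy0 i hi, hu i hi, mul_zero, sub_self]
  refine ⟨y ⬝ᵥ f j₀ / u ⬝ᵥ f j₀, fun j hj => ?_⟩
  generalize y ⬝ᵥ f j₀ / u ⬝ᵥ f j₀ = w₀ at h1
  have h2 := congrArg (fun x => x ⬝ᵥ f j) h1
  simp only [hy, sub_dotProduct, sum_dotProduct, smul_dotProduct, smul_eq_mul,
    zero_dotProduct] at h2
  have h3 := nz hS hc h hu0 hu hj
  simp only [← mul_div_assoc, ← sum_div]
  field_simp
  linear_combination -h2

/-- the relation between the normals of a neighbouring partition, with explicit constants -/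
theorem grid' (hS : Sq f) (hc : Fintype.card ι + 2 = 2 * Fintype.card κ) {S : Finset ι}
    (h : S.card + 1 = Fintype.card κ) {u v : κ → ℝ} (hu0 : u ≠ 0) (hu : ∀ i ∈ S, u ⬝ᵥ f i = 0)
    (hv0 : v ≠ 0) (hv : ∀ i ∈ Sᶜ, v ⬝ᵥ f i = 0) {i j : ι} (hi : i ∈ S) (hj : j ∉ S)
    {g e : κ → ℝ} (hg : ∀ t ∈ S, t ≠ i → g ⬝ᵥ f t = 0) (hg1 : g ⬝ᵥ f i = 1)
    (he : ∀ t ∈ Sᶜ, t ≠ j → e ⬝ᵥ f t = 0) (he1 : e ⬝ᵥ f j = 1) :
    ∃ c : ℝ, c ≠ 0 ∧ ∀ k, (g k - g ⬝ᵥ f j / u ⬝ᵥ f j * u k) ^ 2 =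
      c * (e k - e ⬝ᵥ f i / v ⬝ᵥ f i * v k) ^ 2 := by
  have hcc : Sᶜ.card + 1 = Fintype.card κ := by
    have := card_add_card_compl S
    omega
  have huj := nz hS hc h hu0 hu hj
  have hvi := nz hS hc hcc hv0 hv (j := i) (by simpa using hi)
  have h1 := swp hu huj hg
  have h2 := swp hv hvi he
  obtain ⟨c, hc'⟩ := prop_sq hS (S := insert j (S.erase i))
    (u := g - (g ⬝ᵥ f j / u ⬝ᵥ f j) • u) (v := e - (e ⬝ᵥ f i / v ⬝ᵥ f i) • v)
    (fun t ht => h1 t (by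
      rcases mem_insert.1 ht with h3 | h3
      · exact Or.inl h3
      · exact Or.inr ⟨mem_of_mem_erase h3, ne_of_mem_erase h3⟩))
    (fun t ht => h2 t (by
      rw [mem_insert, mem_erase] at ht
      rw [mem_compl]
      tauto))
    (fun h0 => by
      have h3 := congrArg (fun y => y ⬝ᵥ f j) h0
      simp [hv j (mem_compl.2 hj), he1] at h3)
  refine ⟨c, fun h0 => ?_, fun k => by simpa using hc' k⟩
  have h3 : g - (g ⬝ᵥ f j / u ⬝ᵥ f j) • u = 0 := by
    funext k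
    have h4 := hc' k
    rw [h0, zero_mul] at h4
    exact pow_eq_zero_iff two_ne_zero |>.1 h4
  have h4 := congrArg (fun y => y ⬝ᵥ f i) h3
  simp [hu i hi, hg1] at h4

/-- in dimension five every normal has a zero coordinate -/
theorem five_zero (hS : Sq f) (hc : Fintype.card ι + 2 = 2 * Fintype.card κ)
    (h5 : Fintype.card κ = 5) {S : Finset ι}
    (h : S.card + 1 = Fintype.card κ) {u : κ → ℝ} (hu0 : u ≠ 0) (hu : ∀ i ∈ S, u ⬝ᵥ f i = 0) :
    ∃ k, u k = 0 := by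
  classical
  by_contra hall
  push Not at hall
  have hcc : Sᶜ.card + 1 = Fintype.card κ := by
    have := card_add_card_compl S
    omega
  obtain ⟨j₄, hj₄⟩ := card_pos.1 (show 0 < Sᶜ.card by omega)
  obtain ⟨j₁, j₂, j₃, h12, h13, h23, hJ⟩ :=
    card_eq_three.1 (show (Sᶜ.erase j₄).card = 3 by rw [card_erase_of_mem hj₄]; omega)
  have m1 : j₁ ≠ j₄ ∧ j₁ ∈ Sᶜ := mem_erase.1 (by rw [hJ]; simp)
  have m2 : j₂ ≠ j₄ ∧ j₂ ∈ Sᶜ := mem_erase.1 (by rw [hJ]; simp)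
  have m3 : j₃ ≠ j₄ ∧ j₃ ∈ Sᶜ := mem_erase.1 (by rw [hJ]; simp)
  obtain ⟨i₀, hi₀⟩ := card_pos.1 (show 0 < S.card by omega)
  obtain ⟨v, hv0, hv⟩ := exists_normal f Sᶜ (by omega)
  obtain ⟨g, hg⟩ := exists_dual hS hc h (mem_compl.1 hj₄)
  obtain ⟨e, he⟩ := exists_dual hS hc hcc (j := i₀) (by simpa using hi₀)
  set l : ι → ι → ℝ := fun i j => g i ⬝ᵥ f j / u ⬝ᵥ f j with hl
  set m : ι → ι → ℝ := fun i j => e j ⬝ᵥ f i / v ⬝ᵥ f i with hm
  have hC : ∀ i j, ∃ c : ℝ, i ∈ S → j ∈ Sᶜ → c ≠ 0 ∧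
      ∀ k, (g i k - l i j * u k) ^ 2 = c * (e j k - m i j * v k) ^ 2 := by
    intro i j
    by_cases hij : i ∈ S ∧ j ∈ Sᶜ
    · obtain ⟨c, hc'⟩ := grid' hS hc h hu0 hu hv0 hv hij.1 (mem_compl.1 hij.2) (hg i hij.1).1
        (hg i hij.1).2 (he j hij.2).1 (he j hij.2).2
      exact ⟨c, fun _ _ => hc'⟩
    · exact ⟨0, fun a b => absurd ⟨a, b⟩ hij⟩
  choose c hC using hC
  obtain ⟨c₀, hc₀⟩ := prop_sq hS hu (fun i hi => hv i (mem_compl.2 hi)) hv0
  have hτ : ∀ i ∈ S, v ⬝ᵥ f i ≠ 0 := fun i hi => nz hS hc hcc hv0 hv (by simpa using hi)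
  have hlne : ∀ i ∈ S, ∀ p ∈ Sᶜ, ∀ q ∈ Sᶜ, p ≠ q → l i p ≠ l i q := by
    intro i hi p hp q hq hpq hE
    have hp' := mem_compl.1 hp
    have hq' := mem_compl.1 hq
    have h1 : g i - l i p • u = 0 := by
      refine spark hS hc (S := insert q (insert p (S.erase i))) ?_ ?_
      · rw [card_insert_of_notMem, card_swap hi hp']
        · omega
        · rw [mem_insert, mem_erase]
          rintro (h2 | h2)
          · exact hpq h2.symm
          · exact hq' h2.2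
      · intro t ht
        rw [sub_dotProduct, smul_dotProduct, smul_eq_mul]
        rcases mem_insert.1 ht with rfl | ht
        · rw [hE, hl, div_mul_cancel₀ _ (nz hS hc h hu0 hu hq'), sub_self]
        rcases mem_insert.1 ht with rfl | ht
        · rw [hl, div_mul_cancel₀ _ (nz hS hc h hu0 hu hp'), sub_self]
        · rw [(hg i hi).1 t (mem_of_mem_erase ht) (ne_of_mem_erase ht),
            hu t (mem_of_mem_erase ht), mul_zero, sub_self]
    have h4 := congrArg (fun y => y ⬝ᵥ f i) h1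
    simp [hu i hi, (hg i hi).2] at h4
  -- the basic relation tested against `z`
  have rel : ∀ z : κ → ℝ, z ⬝ᵥ (v * v) = 0 → ∀ i ∈ S, ∀ j ∈ Sᶜ,
      z ⬝ᵥ (g i * g i) - 2 * l i j * z ⬝ᵥ (u * g i) =
        c i j * (z ⬝ᵥ (e j * e j) - 2 * m i j * z ⬝ᵥ (v * e j)) := by
    intro z hz i hi j hj
    have h1 : z ⬝ᵥ (g i * g i) - 2 * l i j * z ⬝ᵥ (u * g i) =
        c i j * (z ⬝ᵥ (e j * e j) - 2 * m i j * z ⬝ᵥ (v * e j)) +
          (c i j * m i j ^ 2 - l i j ^ 2 * c₀) * z ⬝ᵥ (v * v) := by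
      simp only [dotProduct, mul_sum, ← sum_add_distrib, ← sum_sub_distrib, Pi.mul_apply]
      refine sum_congr rfl fun k _ => ?_
      linear_combination z k * ((hC i j hi hj).2 k - l i j ^ 2 * hc₀ k)
    rw [h1, hz, mul_zero, add_zero]
  have kill : ∀ z : κ → ℝ, z ⬝ᵥ (v * v) = 0 → (∀ i ∈ S, z ⬝ᵥ (u * g i) = 0) → z = 0 := by
    intro z hz ha
    have hw : z * u = 0 := by
      refine span_all hS hc h hu0 hu (mem_compl.1 hj₄) g (fun i hi t ht hti => (hg i hi).1 t ht hti)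
        (fun i hi => by rw [(hg i hi).2]; exact one_ne_zero) ?_ ?_
      · have h1 : (z * u) ⬝ᵥ u = c₀ * z ⬝ᵥ (v * v) := by
          simp only [dotProduct, mul_sum, Pi.mul_apply]
          refine sum_congr rfl fun k _ => ?_
          linear_combination z k * hc₀ k
        rw [h1, hz, mul_zero]
      · intro i hi
        rw [← ha i hi]
        simp only [dotProduct, Pi.mul_apply, mul_assoc]
    funext k
    have h1 : z k * u k = 0 := congrFun hw k
    simpa [hall k] using h1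
  obtain ⟨v₀, R0⟩ := expand hS hc h hu0 hu hg (mem_compl.1 hj₄) v
  obtain ⟨η, R1⟩ := expand hS hc h hu0 hu hg (mem_compl.1 hj₄) (e j₄)
  have S0 : ∀ q ∈ Sᶜ, ∑ i ∈ S, v ⬝ᵥ f i * (l i q - l i j₄) = 0 := by
    intro q hq
    simp only [mul_sub, sum_sub_distrib, hl]
    rw [R0 q (mem_compl.1 hq), R0 j₄ (mem_compl.1 hj₄), hv q hq, hv j₄ hj₄]
    simp
  have S1 : ∀ q ∈ Sᶜ, q ≠ j₄ →
      ∑ i ∈ S, v ⬝ᵥ f i * m i j₄ * (l i q - l i j₄) = -(1 / u ⬝ᵥ f j₄) := by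
    intro q hq hq4
    have h1 : ∀ i ∈ S, v ⬝ᵥ f i * m i j₄ * (l i q - l i j₄) =
        e j₄ ⬝ᵥ f i * l i q - e j₄ ⬝ᵥ f i * l i j₄ := by
      intro i hi
      rw [hm, mul_div_cancel₀ _ (hτ i hi), mul_sub]
    rw [sum_congr rfl h1, sum_sub_distrib, hl]
    rw [R1 q (mem_compl.1 hq), R1 j₄ (mem_compl.1 hj₄), (he j₄ hj₄).1 q hq hq4, (he j₄ hj₄).2]
    ring
  set Y : ι → ι → (κ → ℝ) → ℝ := fun p q z =>
    ∑ i ∈ S, v ⬝ᵥ f i * (l i p - l i j₄) * (l i q - l i j₄) / c i j₄ * z ⬝ᵥ (u * g i) -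
      1 / u ⬝ᵥ f j₄ * z ⬝ᵥ (v * e j₄) with hY
  have Ysymm : ∀ p q z, Y p q z = Y q p z := by
    intro p q z
    simp only [hY]
    congr 1
    exact sum_congr rfl fun i _ => by ring
  have Yform : ∀ p ∈ Sᶜ, ∀ q ∈ Sᶜ, q ≠ j₄ → ∃ α β : ℝ, ∀ z : κ → ℝ, z ⬝ᵥ (v * v) = 0 →
      Y p q z = α * z ⬝ᵥ (e p * e p) + β * z ⬝ᵥ (v * e p) := by
    intro p hp q hq hq4
    refine ⟨-∑ i ∈ S, v ⬝ᵥ f i * (l i q - l i j₄) * c i p / (2 * c i j₄),
      ∑ i ∈ S, v ⬝ᵥ f i * (l i q - l i j₄) * c i p * m i p / c i j₄, fun z hz => ?_⟩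
    have h1 : ∀ i ∈ S,
        v ⬝ᵥ f i * (l i p - l i j₄) * (l i q - l i j₄) / c i j₄ * z ⬝ᵥ (u * g i) =
        v ⬝ᵥ f i * (l i q - l i j₄) * (z ⬝ᵥ (e j₄ * e j₄) / 2) -
          v ⬝ᵥ f i * m i j₄ * (l i q - l i j₄) * z ⬝ᵥ (v * e j₄) -
          v ⬝ᵥ f i * (l i q - l i j₄) * c i p / (2 * c i j₄) * z ⬝ᵥ (e p * e p) +
          v ⬝ᵥ f i * (l i q - l i j₄) * c i p * m i p / c i j₄ * z ⬝ᵥ (v * e p) := by
      intro i hi
      have h2 := rel z hz i hi p hp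
      have h3 := rel z hz i hi j₄ hj₄
      have h4 := (hC i j₄ hi hj₄).1
      field_simp
      linear_combination v ⬝ᵥ f i * (l i q - l i j₄) * (h3 - h2)
    simp only [hY]
    rw [sum_congr rfl h1]
    simp only [sum_add_distrib, sum_sub_distrib, ← sum_mul]
    rw [S0 q hq, S1 q hq hq4]
    ring
  have Yzero : ∀ p ∈ Sᶜ, ∀ q ∈ Sᶜ, p ≠ j₄ → q ≠ j₄ → p ≠ q → ∀ z : κ → ℝ, z ⬝ᵥ (v * v) = 0 →
      Y p q z = 0 := by
    intro p hp q hq hp4 hq4 hpq
    obtain ⟨α, β, h1⟩ := Yform p hp q hq hq4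
    obtain ⟨α', β', h2⟩ := Yform q hq p hp hp4
    obtain ⟨z, hz0, hz⟩ := exists_orth
      ({v * v, e q * e q, v * e q, β • (e p * e p) - α • (v * e p)} : Finset (κ → ℝ))
      (card_le_four.trans_lt (by omega))
    have z1 : z ⬝ᵥ (v * v) = 0 := hz _ (by simp)
    have z2 : z ⬝ᵥ (e q * e q) = 0 := hz _ (by simp)
    have z3 : z ⬝ᵥ (v * e q) = 0 := hz _ (by simp)
    have z4 : β * z ⬝ᵥ (e p * e p) - α * z ⬝ᵥ (v * e p) = 0 := by
      have := hz (β • (e p * e p) - α • (v * e p)) (by simp)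
      rwa [dotProduct_sub, dotProduct_smul, dotProduct_smul] at this
    have z5 : α * z ⬝ᵥ (e p * e p) + β * z ⬝ᵥ (v * e p) = 0 := by
      rw [← h1 z z1, Ysymm, h2 z z1, z2, z3]; ring
    have h3 : α ^ 2 + β ^ 2 = 0 := by
      by_contra h4
      have z6 : z ⬝ᵥ (e p * e p) = 0 := by
        refine (mul_eq_zero.1 (?_ : (α ^ 2 + β ^ 2) * _ = 0)).resolve_left h4
        linear_combination α * z5 + β * z4
      have z7 : z ⬝ᵥ (v * e p) = 0 := by
        refine (mul_eq_zero.1 (?_ : (α ^ 2 + β ^ 2) * _ = 0)).resolve_left h4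
        linear_combination β * z5 - α * z4
      refine hz0 (kill z z1 fun i hi => ?_)
      have r1 := rel z z1 i hi p hp
      have r2 := rel z z1 i hi q hq
      rw [z6, z7] at r1
      rw [z2, z3] at r2
      refine (mul_eq_zero.1 (?_ : (l i p - l i q) * _ = 0)).resolve_left
        (sub_ne_zero.2 (hlne i hi p hp q hq hpq))
      linear_combination (r2 - r1) / 2
    have hα : α = 0 := by nlinarith [sq_nonneg α, sq_nonneg β]
    have hβ : β = 0 := by nlinarith [sq_nonneg α, sq_nonneg β]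
    intro w hw
    rw [h1 w hw, hα, hβ]
    ring
  obtain ⟨z, hz0, hz⟩ := exists_orth (insert (v * v) ((S.erase i₀).image fun i => u * g i)) (by
    have a1 := card_insert_le (v * v) ((S.erase i₀).image fun i => u * g i)
    have a2 : ((S.erase i₀).image fun i => u * g i).card ≤ (S.erase i₀).card := card_image_le
    rw [card_erase_of_mem hi₀] at a2
    omega)
  have z1 : z ⬝ᵥ (v * v) = 0 := hz _ (mem_insert_self _ _)
  have z2 : ∀ i ∈ S, i ≠ i₀ → z ⬝ᵥ (u * g i) = 0 := fun i hi hne =>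
    hz _ (mem_insert_of_mem (mem_image_of_mem _ (mem_erase.2 ⟨hne, hi⟩)))
  have y1 := Yzero j₁ m1.2 j₂ m2.2 m1.1 m2.1 h12 z z1
  have y2 := Yzero j₁ m1.2 j₃ m3.2 m1.1 m3.1 h13 z z1
  simp only [hY] at y1 y2
  rw [sum_eq_single_of_mem i₀ hi₀ (fun i hi hne => by rw [z2 i hi hne, mul_zero])] at y1 y2
  refine hz0 (kill z z1 fun i hi => ?_)
  by_cases hne : i = i₀
  · subst hne
    have n1 := sub_ne_zero.2 (hlne i hi j₁ m1.2 j₄ hj₄ m1.1)
    have n2 := sub_ne_zero.2 (hlne i hi j₂ m2.2 j₃ m3.2 h23)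
    have n3 : v ⬝ᵥ f i * (l i j₁ - l i j₄) * (l i j₂ - l i j₃) / c i j₄ ≠ 0 :=
      div_ne_zero (mul_ne_zero (mul_ne_zero (hτ i hi) n1) n2) (hC i j₄ hi hj₄).1
    refine (mul_eq_zero.1 ?_).resolve_left n3
    linear_combination y1 - y2
  · exact z2 i hi hne

/-- some normal of the four vectors with indices `o, a, b, c` vanishes at the coordinate `k` -/
def Lin (f : ι → κ → ℝ) (k : κ) (o a b c : ι) : Prop :=
  ∃ y : κ → ℝ, y ≠ 0 ∧ y k = 0 ∧ y ⬝ᵥ f o = 0 ∧ y ⬝ᵥ f a = 0 ∧ y ⬝ᵥ f b = 0 ∧ y ⬝ᵥ f c = 0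

omit [Fintype ι] [DecidableEq ι] [DecidableEq κ] in
theorem Lin.s1 {k : κ} {o a b c : ι} (h : Lin f k o a b c) : Lin f k o b a c := by
  obtain ⟨y, h1, h2, h3, h4, h5, h6⟩ := h
  exact ⟨y, h1, h2, h3, h5, h4, h6⟩

omit [Fintype ι] [DecidableEq ι] [DecidableEq κ] in
theorem Lin.s2 {k : κ} {o a b c : ι} (h : Lin f k o a b c) : Lin f k o a c b := by
  obtain ⟨y, h1, h2, h3, h4, h5, h6⟩ := h
  exact ⟨y, h1, h2, h3, h4, h6, h5⟩

omit [Fintype ι] in
theorem card_three' {o a b : ι} (h1 : o ≠ a) (h2 : o ≠ b) (h3 : a ≠ b) :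
    ({o, a, b} : Finset ι).card = 3 := card_eq_three.2 ⟨o, a, b, h1, h2, h3, rfl⟩

theorem Lin.uniq (hS : Sq f) (hc : Fintype.card ι + 2 = 2 * Fintype.card κ)
    (h5 : Fintype.card κ = 5) {k : κ} {o a b c d : ι} (h1 : o ≠ a) (h2 : o ≠ b) (h3 : a ≠ b)
    (c1 : c ≠ o) (c2 : c ≠ a) (c3 : c ≠ b) (d1 : d ≠ o) (d2 : d ≠ a) (d3 : d ≠ b)
    (hc' : Lin f k o a b c) (hd : Lin f k o a b d) : c = d := by
  by_contra hne
  obtain ⟨y, y0, yk, y1, y2, y3, y4⟩ := hc'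
  obtain ⟨z, z0, zk, z1, z2, z3, z4⟩ := hd
  exact no_common_zero hS hc (T := {o, a, b}) (by rw [card_three' h1 h2 h3]; omega)
    (j₀ := c) (j₁ := d) (by simp [c1, c2, c3]) (by simp [d1, d2, d3]) hne y0
    (by simp [y1, y2, y3, y4]) z0 (by simp [z1, z2, z3, z4]) yk zk

theorem Lin.ex (hS : Sq f) (hc : Fintype.card ι + 2 = 2 * Fintype.card κ)
    (h5 : Fintype.card κ = 5) (k : κ) {o a b : ι} (h1 : o ≠ a) (h2 : o ≠ b) (h3 : a ≠ b) :
    ∃ c, c ≠ o ∧ c ≠ a ∧ c ≠ b ∧ Lin f k o a b c := by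
  have hT := card_three' h1 h2 h3
  have hZ : ∀ j : (({o, a, b} : Finset ι)ᶜ : Finset ι), ∃ k', Lin f k' o a b j := by
    rintro ⟨j, hj⟩
    have h4 : (insert j ({o, a, b} : Finset ι)).card = 4 := by
      rw [card_insert_of_notMem (mem_compl.1 hj), hT]
    obtain ⟨y, y0, hy⟩ := exists_normal f (insert j {o, a, b}) (by omega)
    obtain ⟨k', hk'⟩ := five_zero hS hc h5 (by omega) y0 hy
    exact ⟨k', y, y0, hk', hy _ (by simp), hy _ (by simp), hy _ (by simp), hy _ (by simp)⟩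
  choose φ hφ using hZ
  have hm : ∀ j : (({o, a, b} : Finset ι)ᶜ : Finset ι), j.1 ≠ o ∧ j.1 ≠ a ∧ j.1 ≠ b := by
    intro j
    simpa [not_or] using j.2
  have hinj : Function.Injective φ := fun j j' hjj =>
    Subtype.ext (Lin.uniq hS hc h5 h1 h2 h3 (hm j).1 (hm j).2.1 (hm j).2.2 (hm j').1 (hm j').2.1
      (hm j').2.2 (hφ j) (hjj ▸ hφ j'))
  have hbij : Function.Bijective φ := (Fintype.bijective_iff_injective_and_card φ).2 ⟨hinj, by
    rw [Fintype.card_coe, card_compl, hT]; omega⟩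
  obtain ⟨j, rfl⟩ := hbij.2 k
  exact ⟨j, (hm j).1, (hm j).2.1, (hm j).2.2, hφ j⟩

theorem nz5 (hS : Sq f) (hc : Fintype.card ι + 2 = 2 * Fintype.card κ)
    (h5 : Fintype.card κ = 5) {y : κ → ℝ} (y0 : y ≠ 0) {o a b c x : ι} (h1 : o ≠ a) (h2 : o ≠ b)
    (h3 : a ≠ b) (c1 : c ≠ o) (c2 : c ≠ a) (c3 : c ≠ b) (x1 : x ≠ o) (x2 : x ≠ a) (x3 : x ≠ b)
    (x4 : x ≠ c) (y1 : y ⬝ᵥ f o = 0) (y2 : y ⬝ᵥ f a = 0) (y3 : y ⬝ᵥ f b = 0)
    (y4 : y ⬝ᵥ f c = 0) : y ⬝ᵥ f x ≠ 0 :=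
  nz hS hc (S := insert c {o, a, b})
    (by rw [card_insert_of_notMem (by simp [c1, c2, c3]), card_three' h1 h2 h3]; omega) y0
    (by simp [y1, y2, y3, y4]) (by simp [x1, x2, x3, x4])

theorem not_sq_five (hc : Fintype.card ι + 2 = 2 * Fintype.card κ) (h5 : Fintype.card κ = 5) :
    ¬ Sq f := by
  intro hS
  obtain ⟨k⟩ : Nonempty κ := Fintype.card_pos_iff.1 (by omega)
  obtain ⟨o, a, b, oa, ob, ab⟩ := Fintype.two_lt_card_iff.1 (show 2 < Fintype.card ι by omega)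
  have U := fun {a b c d : ι} => Lin.uniq hS hc h5 (k := k) (o := o) (a := a) (b := b) (c := c)
    (d := d)
  obtain ⟨c, co, ca, cb, Labc⟩ := Lin.ex hS hc h5 k oa ob ab
  obtain ⟨d, hd⟩ : ∃ d, d ∉ ({o, a, b, c} : Finset ι) :=
    (exists_mem_notMem_of_card_lt_card (t := univ)
      (card_le_four.trans_lt (by rw [card_univ]; omega))).imp fun _ h => h.2
  simp only [mem_insert, mem_singleton, not_or] at hd
  obtain ⟨d_o, da, db, dc⟩ := hd
  obtain ⟨e, eo, ea, ed, Lade⟩ := Lin.ex hS hc h5 k oa (Ne.symm d_o) (Ne.symm da)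
  obtain ⟨p, po, pb, pd, Lbdp⟩ := Lin.ex hS hc h5 k ob (Ne.symm d_o) (Ne.symm db)
  obtain ⟨g, go, gc, gd, Lcdg⟩ := Lin.ex hS hc h5 k co.symm (Ne.symm d_o) (Ne.symm dc)
  have eb : e ≠ b := by
    rintro rfl
    exact dc (U oa ob ab d_o da db co ca cb Lade.s2 Labc)
  have ec : e ≠ c := by
    rintro rfl
    exact db (U oa co.symm ca.symm d_o da dc ob.symm ab.symm cb.symm Lade.s2 Labc.s2)
  have pa : p ≠ a := by
    rintro rfl
    exact dc (U oa ob ab d_o da db co ca cb Lbdp.s2.s1 Labc)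
  have pc : p ≠ c := by
    rintro rfl
    exact da (U ob co.symm cb.symm d_o db dc oa.symm ab ca.symm Lbdp.s2 Labc.s1.s2)
  have pe : p ≠ e := by
    rintro rfl
    exact ab (U (Ne.symm d_o) eo.symm ed.symm oa.symm (Ne.symm da) ea.symm ob.symm (Ne.symm db)
      eb.symm Lade.s1.s2 Lbdp.s1.s2)
  have ga : g ≠ a := by
    rintro rfl
    exact db (U oa co.symm ca.symm d_o da dc ob.symm ab.symm cb.symm Lcdg.s2.s1 Labc.s2)
  have gb : g ≠ b := by
    rintro rfl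
    exact da (U ob co.symm cb.symm d_o db dc oa.symm ab ca.symm Lcdg.s2.s1 Labc.s1.s2)
  have ge : g ≠ e := by
    rintro rfl
    exact ca (U (Ne.symm d_o) eo.symm ed.symm co (Ne.symm dc) ec.symm oa.symm (Ne.symm da)
      ea.symm Lcdg.s1.s2 Lade.s1.s2)
  have gp : g ≠ p := by
    rintro rfl
    exact cb (U (Ne.symm d_o) po.symm pd.symm co (Ne.symm dc) pc.symm ob.symm (Ne.symm db)
      pb.symm Lcdg.s1.s2 Lbdp.s1.s2)
  have hall : ∀ x, x = g ∨ x = p ∨ x = e ∨ x = d ∨ x = c ∨ x = o ∨ x = a ∨ x = b := by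
    intro x
    have h8 : ({g, p, e, d, c, o, a, b} : Finset ι) = univ := by
      refine eq_univ_of_card _ ?_
      rw [card_insert_of_notMem (by simp [*]), card_insert_of_notMem (by simp [*]),
        card_insert_of_notMem (by simp [*]), card_insert_of_notMem (by simp [*]),
        card_insert_of_notMem (by simp [*]), card_three' oa ob ab]
      omega
    simpa using (h8 ▸ mem_univ x : x ∈ ({g, p, e, d, c, o, a, b} : Finset ι))
  have Lapg : Lin f k o a p g := by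
    obtain ⟨x, xo, xa, xp, L⟩ := Lin.ex hS hc h5 k oa po.symm pa.symm
    rcases hall x with rfl | rfl | rfl | rfl | rfl | rfl | rfl | rfl
    · exact L
    · exact absurd rfl xp
    · exact absurd (U oa eo.symm ea.symm po pa pe d_o da ed.symm L.s2 Lade.s2) pd
    · exact absurd (U oa (Ne.symm d_o) (Ne.symm da) po pa pd eo ea ed L.s2 Lade) pe
    · exact absurd (U oa co.symm ca.symm po pa pc ob.symm ab.symm cb.symm L.s2 Labc.s2) pb
    · exact absurd rfl xo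
    · exact absurd rfl xa
    · exact absurd (U oa ob ab po pa pb co ca cb L.s2 Labc) pc
  have Lbeg : Lin f k o b e g := by
    obtain ⟨x, xo, xb, xe, L⟩ := Lin.ex hS hc h5 k ob eo.symm eb.symm
    rcases hall x with rfl | rfl | rfl | rfl | rfl | rfl | rfl | rfl
    · exact L
    · exact absurd (U ob po.symm pb.symm eo eb pe.symm d_o db pd.symm L.s2 Lbdp.s2) ed
    · exact absurd rfl xe
    · exact absurd (U ob (Ne.symm d_o) (Ne.symm db) eo eb ed po pb pd L.s2 Lbdp) pe.symm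
    · exact absurd (U ob co.symm cb.symm eo eb ec oa.symm ab ca.symm L.s2 Labc.s1.s2) ea
    · exact absurd rfl xo
    · exact absurd (U oa ob ab eo ea eb co ca cb L.s2.s1 Labc) ec
    · exact absurd rfl xb
  have Lcep : Lin f k o c e p := by
    obtain ⟨x, xo, xc, xe, L⟩ := Lin.ex hS hc h5 k co.symm eo.symm ec.symm
    rcases hall x with rfl | rfl | rfl | rfl | rfl | rfl | rfl | rfl
    · exact absurd (U co.symm go.symm gc.symm eo ec ge.symm d_o dc gd.symm L.s2 Lcdg.s2) ed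
    · exact L
    · exact absurd rfl xe
    · exact absurd (U co.symm (Ne.symm d_o) (Ne.symm dc) eo ec ed go gc gd L.s2 Lcdg) ge.symm
    · exact absurd rfl xc
    · exact absurd rfl xo
    · exact absurd (U oa co.symm ca.symm eo ea ec ob.symm ab.symm cb.symm L.s2.s1 Labc.s2) eb
    · exact absurd (U ob co.symm cb.symm eo eb ec oa.symm ab ca.symm L.s2.s1 Labc.s1.s2) ea
  have Labc' := Labc
  obtain ⟨n1, n10, n1k, n1o, n1a, n1b, n1c⟩ := Labc
  obtain ⟨n2, n20, n2k, n2o, n2a, n2d, n2e⟩ := Lade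
  obtain ⟨n3, n30, n3k, n3o, n3b, n3d, n3p⟩ := Lbdp
  have N1 := fun {x : ι} (x1 : x ≠ o) (x2 : x ≠ a) (x3 : x ≠ b) (x4 : x ≠ c) =>
    nz5 hS hc h5 n10 oa ob ab co ca cb x1 x2 x3 x4 n1o n1a n1b n1c
  have N2 := fun {x : ι} (x1 : x ≠ o) (x2 : x ≠ a) (x3 : x ≠ d) (x4 : x ≠ e) =>
    nz5 hS hc h5 n20 oa (Ne.symm d_o) (Ne.symm da) eo ea ed x1 x2 x3 x4 n2o n2a n2d n2e
  have N3 := fun {x : ι} (x1 : x ≠ o) (x2 : x ≠ b) (x3 : x ≠ d) (x4 : x ≠ p) =>
    nz5 hS hc h5 n30 ob (Ne.symm d_o) (Ne.symm db) po pb pd x1 x2 x3 x4 n3o n3b n3d n3p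
  have d1 := N1 d_o da db dc
  have e1 := N1 eo ea eb ec
  have p1 := N1 po pa pb pc
  have g1 := N1 go ga gb gc
  have b2 := N2 ob.symm ab.symm (Ne.symm db) eb.symm
  have c2 := N2 co ca (Ne.symm dc) ec.symm
  have p2 := N2 po pa pd pe
  have a3 := N3 oa.symm ab (Ne.symm da) pa.symm
  have c3 := N3 co cb (Ne.symm dc) pc.symm
  have e3 := N3 eo eb ed pe.symm
  have comb : ∀ {r s t : ι}, Lin f k o r s t → ∃ α β γ : ℝ, ¬ (α = 0 ∧ β = 0 ∧ γ = 0) ∧
      α * n1 ⬝ᵥ f r + β * n2 ⬝ᵥ f r + γ * n3 ⬝ᵥ f r = 0 ∧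
      α * n1 ⬝ᵥ f s + β * n2 ⬝ᵥ f s + γ * n3 ⬝ᵥ f s = 0 ∧
      α * n1 ⬝ᵥ f t + β * n2 ⬝ᵥ f t + γ * n3 ⬝ᵥ f t = 0 := by
    rintro r s t ⟨y, y0, yk, yo, yr, ys, yt⟩
    have h1 : y - ((y ⬝ᵥ f d / n1 ⬝ᵥ f d) • n1 + (y ⬝ᵥ f b / n2 ⬝ᵥ f b) • n2 +
        (y ⬝ᵥ f a / n3 ⬝ᵥ f a) • n3) = 0 := by
      by_contra hne
      refine dc (U oa ob ab d_o da db co ca cb ⟨_, hne, ?_, ?_, ?_, ?_, ?_⟩ Labc')
      · simp [yk, n1k, n2k, n3k]
      · simp [yo, n1o, n2o, n3o]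
      · simp [n1a, n2a, a3]
      · simp [n1b, n3b, b2]
      · simp [n2d, n3d, d1]
    rw [sub_eq_zero] at h1
    generalize y ⬝ᵥ f d / n1 ⬝ᵥ f d = α at h1
    generalize y ⬝ᵥ f b / n2 ⬝ᵥ f b = β at h1
    generalize y ⬝ᵥ f a / n3 ⬝ᵥ f a = γ at h1
    subst h1
    refine ⟨α, β, γ, ?_, by simpa using yr, by simpa using ys, by simpa using yt⟩
    rintro ⟨rfl, rfl, rfl⟩
    simp at y0
  have two : ∀ {α β x y z w : ℝ}, ¬ (α = 0 ∧ β = 0) → α * x + β * y = 0 → α * z + β * w = 0 →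
      x * w = y * z := by
    intro α β x y z w h0 h1 h2
    by_contra h3
    refine h0 ⟨(mul_eq_zero.1 (?_ : α * (x * w - y * z) = 0)).resolve_right (sub_ne_zero.2 h3),
      (mul_eq_zero.1 (?_ : β * (x * w - y * z) = 0)).resolve_right (sub_ne_zero.2 h3)⟩
    · linear_combination w * h1 - y * h2
    · linear_combination x * h2 - z * h1
  have E1 : n2 ⬝ᵥ f c * n3 ⬝ᵥ f g = n3 ⬝ᵥ f c * n2 ⬝ᵥ f g := by
    obtain ⟨α, β, γ, h0, r1, r2, r3⟩ := comb Lcdg
    obtain rfl : α = 0 := by simpa [n2d, n3d, d1] using r2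
    exact two (α := β) (β := γ) (by tauto) (by linarith) (by linarith)
  have E2 : n1 ⬝ᵥ f p * n2 ⬝ᵥ f g = n2 ⬝ᵥ f p * n1 ⬝ᵥ f g := by
    obtain ⟨α, β, γ, h0, r1, r2, r3⟩ := comb Lapg
    obtain rfl : γ = 0 := by simpa [n1a, n2a, a3] using r1
    exact two (α := α) (β := β) (by tauto) (by linarith) (by linarith)
  have E3 : n1 ⬝ᵥ f e * n3 ⬝ᵥ f g = n3 ⬝ᵥ f e * n1 ⬝ᵥ f g := by
    obtain ⟨α, β, γ, h0, r1, r2, r3⟩ := comb Lbeg
    obtain rfl : β = 0 := by simpa [n1b, n3b, b2] using r1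
    exact two (α := α) (β := γ) (by tauto) (by linarith) (by linarith)
  obtain ⟨α, β, γ, h0, r1, r2, r3⟩ := comb Lcep
  rw [n1c] at r1
  rw [n2e] at r2
  rw [n3p] at r3
  have g3 := N3 go gb gd gp
  have g2 := N2 go ga gd ge
  have hγ : γ = 0 := by
    have h1 : γ * (2 * n3 ⬝ᵥ f c * n3 ⬝ᵥ f e * n2 ⬝ᵥ f p * n1 ⬝ᵥ f g * n2 ⬝ᵥ f g) = 0 := by
      generalize n1 ⬝ᵥ f e = xe1, n1 ⬝ᵥ f p = xp1, n1 ⬝ᵥ f g = xg1, n2 ⬝ᵥ f c = xc2,
        n2 ⬝ᵥ f p = xp2, n2 ⬝ᵥ f g = xg2, n3 ⬝ᵥ f c = xc3, n3 ⬝ᵥ f e = xe3, n3 ⬝ᵥ f g = xg3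
        at r1 r2 r3 E1 E2 E3
      linear_combination xg3 * xg2 * (xe1 * xp2 * r1 + xc2 * xp1 * r2 - xc2 * xe1 * r3) -
        γ * (xc3 * xp2 * xg2 * E3 + xe3 * xp1 * xg2 * E1 + xe3 * xc3 * xg2 * E2)
    exact (mul_eq_zero.1 h1).resolve_right
      (mul_ne_zero (mul_ne_zero (mul_ne_zero (mul_ne_zero (mul_ne_zero two_ne_zero c3) e3) p2) g1) g2)
  subst hγ
  exact h0 ⟨by simpa [e1] using r2, by simpa [c2] using r1, rfl⟩

end Pool.Agent.MP_e57dcf_an

end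

-- part MP_e57dcf_an.H70.Final
section

/-! The families of `2 n - 2` vectors doing weak phase retrieval. -/

set_option autoImplicit false
open Finset Matrix

namespace Pool.Agent.MP_e57dcf_an

theorem weakly_of_nonneg {n : ℕ} {x y : EuclideanSpace ℝ (Fin n)}
    (h : ∀ k l, 0 ≤ (x k * y k) * (x l * y l)) : WeaklySamePhase x y := by
  have sg : ∀ a b : ℝ, (0 < a * b → Real.sign a = 1 * Real.sign b) ∧
      (a * b < 0 → Real.sign a = -1 * Real.sign b) := by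
    intro a b
    constructor <;> intro hab
    · rcases mul_pos_iff.1 hab with ⟨ha, hb⟩ | ⟨ha, hb⟩
      · rw [Real.sign_of_pos ha, Real.sign_of_pos hb, one_mul]
      · rw [Real.sign_of_neg ha, Real.sign_of_neg hb, one_mul]
    · rcases mul_neg_iff.1 hab with ⟨ha, hb⟩ | ⟨ha, hb⟩
      · rw [Real.sign_of_pos ha, Real.sign_of_neg hb]; norm_num
      · rw [Real.sign_of_neg ha, Real.sign_of_pos hb]; norm_num
  by_cases h0 : ∃ k, x k * y k < 0
  · obtain ⟨k, hk⟩ := h0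
    refine ⟨-1, Or.inr rfl, fun l hl => (sg _ _).2 (lt_of_le_of_ne ?_ hl)⟩
    exact nonpos_of_mul_nonneg_right (h k l) hk
  · push Not at h0
    exact ⟨1, Or.inl rfl, fun l hl => (sg _ _).1 (lt_of_le_of_ne (h0 l) hl.symm)⟩

theorem sq_eq_of_abs {s p q : ℝ} (hs : s ≠ 0) (h : |s * p| = |s * q|) : p ^ 2 = q ^ 2 := by
  have h1 := sq_eq_sq_iff_abs_eq_abs _ _ |>.2 h
  refine mul_left_cancel₀ (pow_ne_zero 2 hs) ?_
  linear_combination h1

theorem weak_two {n m : ℕ} {f : Fin m → EuclideanSpace ℝ (Fin n)} (σ : Fin 2 ≃ Fin m)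
    (τ : Fin 2 ≃ Fin n) (s : Fin 2 → ℝ) (a : ℝ) (hs : ∀ i, s i ≠ 0) (ha : a ≠ 0)
    (hf : ∀ i k, f (σ i) (τ k) = s i * ![![1, a], ![1, -a]] i k) : DoesWeakPR f := by
  intro x y hxy
  have e : ∀ (z : EuclideanSpace ℝ (Fin n)) i, inner ℝ z (f (σ i)) =
      s i * ∑ k, z (τ k) * ![![1, a], ![1, -a]] i k := by
    intro z i
    rw [inner_eq_dot, dotProduct, ← Equiv.sum_comp τ, mul_sum]
    exact sum_congr rfl fun k _ => by rw [hf]; ring
  have q : ∀ i, (∑ k, x (τ k) * ![![1, a], ![1, -a]] i k) ^ 2 =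
      (∑ k, y (τ k) * ![![1, a], ![1, -a]] i k) ^ 2 := fun i =>
    sq_eq_of_abs (hs i) (by rw [← e, ← e]; exact hxy _)
  have q0 := q 0
  have q1 := q 1
  simp [Fin.sum_univ_two] at q0 q1
  have h01 : x (τ 0) * x (τ 1) = y (τ 0) * y (τ 1) :=
    mul_left_cancel₀ ha (by linear_combination (q0 - q1) / 4)
  have h : 0 ≤ x (τ 0) * y (τ 0) * (x (τ 1) * y (τ 1)) := by
    have : x (τ 0) * y (τ 0) * (x (τ 1) * y (τ 1)) = (y (τ 0) * y (τ 1)) ^ 2 := by
      linear_combination y (τ 0) * y (τ 1) * h01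
    rw [this]; positivity
  refine weakly_of_nonneg fun k l => ?_
  obtain ⟨k, rfl⟩ := τ.surjective k
  obtain ⟨l, rfl⟩ := τ.surjective l
  fin_cases k <;> fin_cases l
  exacts [mul_self_nonneg _, h, by rw [mul_comm]; exact h, mul_self_nonneg _]

theorem weak_three {n m : ℕ} {f : Fin m → EuclideanSpace ℝ (Fin n)} (σ : Fin 4 ≃ Fin m)
    (τ : Fin 3 ≃ Fin n) (s : Fin 4 → ℝ) (a b t : ℝ) (hs : ∀ i, s i ≠ 0) (ha : a ≠ 0) (hb : b ≠ 0)
    (ht : t ≠ 0) (hf : ∀ i k, f (σ i) (τ k) = s i *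
      ![![1, a, b], ![1, -a, -b], ![1, t * a, -(t * b)], ![1, -(t * a), t * b]] i k) :
    DoesWeakPR f := by
  intro x y hxy
  have e : ∀ (z : EuclideanSpace ℝ (Fin n)) i, inner ℝ z (f (σ i)) = s i * ∑ k, z (τ k) *
      ![![1, a, b], ![1, -a, -b], ![1, t * a, -(t * b)], ![1, -(t * a), t * b]] i k := by
    intro z i
    rw [inner_eq_dot, dotProduct, ← Equiv.sum_comp τ, mul_sum]
    exact sum_congr rfl fun k _ => by rw [hf]; ring
  have q : ∀ i, (∑ k, x (τ k) *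
      ![![1, a, b], ![1, -a, -b], ![1, t * a, -(t * b)], ![1, -(t * a), t * b]] i k) ^ 2 =
      (∑ k, y (τ k) *
      ![![1, a, b], ![1, -a, -b], ![1, t * a, -(t * b)], ![1, -(t * a), t * b]] i k) ^ 2 :=
    fun i => sq_eq_of_abs (hs i) (by rw [← e, ← e]; exact hxy _)
  have q0 := q 0
  have q1 := q 1
  have q2 := q 2
  have q3 := q 3
  simp [Fin.sum_univ_three] at q0 q1 q2 q3
  have key : ∀ k l : Fin 3, 0 ≤ x (τ k) * y (τ k) * (x (τ l) * y (τ l)) := by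
    generalize hx0 : x (τ 0) = x0, hx1 : x (τ 1) = x1, hx2 : x (τ 2) = x2, hy0 : y (τ 0) = y0,
      hy1 : y (τ 1) = y1, hy2 : y (τ 2) = y2 at q0 q1 q2 q3
    have h01 : x0 * x1 = y0 * y1 := mul_left_cancel₀ (mul_ne_zero ht ha)
      (by linear_combination (t * (q0 - q1) + (q2 - q3)) / 8)
    have h02 : x0 * x2 = y0 * y2 := mul_left_cancel₀ (mul_ne_zero ht hb)
      (by linear_combination (t * (q0 - q1) - (q2 - q3)) / 8)
    have p01 : 0 ≤ x0 * y0 * (x1 * y1) := by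
      have : x0 * y0 * (x1 * y1) = (y0 * y1) ^ 2 := by linear_combination y0 * y1 * h01
      rw [this]; positivity
    have p02 : 0 ≤ x0 * y0 * (x2 * y2) := by
      have : x0 * y0 * (x2 * y2) = (y0 * y2) ^ 2 := by linear_combination y0 * y2 * h02
      rw [this]; positivity
    have p12 : 0 ≤ x1 * y1 * (x2 * y2) := by
      by_cases h0 : x0 = 0
      · by_cases h1 : y0 = 0
        · subst h0 h1
          have h12 : x1 * x2 = y1 * y2 :=
            mul_left_cancel₀ (mul_ne_zero (mul_ne_zero (pow_ne_zero 2 ht) ha) hb)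
              (by linear_combination (t ^ 2 * q0 - q2) / 4)
          have : x1 * y1 * (x2 * y2) = (y1 * y2) ^ 2 := by linear_combination y1 * y2 * h12
          rw [this]; positivity
        · have : y1 = 0 := by simpa [h0, h1] using h01
          simp [this]
      · refine nonneg_of_mul_nonneg_right (a := x0 ^ 2) ?_ (by positivity)
        have : x0 ^ 2 * (x1 * y1 * (x2 * y2)) = (y0 * y1 * y2) ^ 2 := by
          linear_combination x0 * x2 * y1 * y2 * h01 + y0 * y1 * y1 * y2 * h02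
        rw [this]; positivity
    intro k l
    fin_cases k <;> fin_cases l <;>
      simp only [Fin.zero_eta, Fin.mk_one, Fin.reduceFinMk, hx0, hx1, hx2, hy0, hy1, hy2] <;>
      first | exact mul_self_nonneg _ | assumption | (rw [mul_comm]; assumption)
  refine weakly_of_nonneg fun k l => ?_
  obtain ⟨k, rfl⟩ := τ.surjective k
  obtain ⟨l, rfl⟩ := τ.surjective l
  exact key k l

theorem no_weak_four (n : ℕ) (hn : 4 ≤ n) (f : Fin (2 * n - 2) → EuclideanSpace ℝ (Fin n)) :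
    ¬ DoesWeakPR f := by
  intro hf
  rcases (by omega : n = 4 ∨ n = 5 ∨ 6 ≤ n) with rfl | rfl | h
  · exact not_sq_four (sq_of_weak hf)
  · exact not_sq_five (by simp) (by simp) (sq_of_weak hf)
  · exact no_weak n h f hf

theorem classification (n : ℕ) (hn : 2 ≤ n) (f : Fin (2 * n - 2) → EuclideanSpace ℝ (Fin n)) :
    DoesWeakPR f ↔
      (∃ (σ : Fin 2 ≃ Fin (2 * n - 2)) (τ : Fin 2 ≃ Fin n) (s : Fin 2 → ℝ) (a : ℝ),
        (∀ i, s i ≠ 0) ∧ a ≠ 0 ∧ ∀ i k, f (σ i) (τ k) = s i * ![![1, a], ![1, -a]] i k) ∨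
      (∃ (σ : Fin 4 ≃ Fin (2 * n - 2)) (τ : Fin 3 ≃ Fin n) (s : Fin 4 → ℝ) (a b t : ℝ),
        (∀ i, s i ≠ 0) ∧ a ≠ 0 ∧ b ≠ 0 ∧ t ≠ 0 ∧ ∀ i k, f (σ i) (τ k) = s i *
          ![![1, a, b], ![1, -a, -b], ![1, t * a, -(t * b)], ![1, -(t * a), t * b]] i k) := by
  constructor
  · intro hf
    rcases (by omega : n = 2 ∨ n = 3 ∨ 4 ≤ n) with rfl | rfl | h
    · obtain ⟨s, a, h⟩ := shape_two (sq_of_weak hf)
      exact Or.inl ⟨Equiv.refl _, Equiv.refl _, s, a, h⟩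
    · exact Or.inr (shape_three (sq_of_weak hf))
    · exact absurd hf (no_weak_four n h f)
  · rintro (⟨σ, τ, s, a, h1, h2, h3⟩ | ⟨σ, τ, s, a, b, t, h1, h2, h3, h4, h5⟩)
    · exact weak_two σ τ s a h1 h2 h3
    · exact weak_three σ τ s a b t h1 h2 h3 h4 h5

end Pool.Agent.MP_e57dcf_an

end
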